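import Pool.Agent.P.MP_169bcc_al.NC.Spec

/-!
The theorem of Brandl: a solvable group covered by the conjugates of a nilpotent subgroup.
-/

open scoped commutatorElement

namespace Pool.Agent.P.MP_169bcc_al.NC

namespace BrP

/-- a minimal normal subgroup inside a solvable normal subgroup is elementary abelian -/
theorem chief {A : Type} [Group A] [Finite A] (H : Subgroup A) (hH : H.Normal)
    (hs : Group.IsSolvable H) (h : H ≠ ⊥) :
    ∃ M : Subgroup A, M.Normal ∧ M ≤ H ∧ M ≠ ⊥ ∧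
      (∀ N : Subgroup A, N.Normal → N ≤ M → N ≠ ⊥ → N = M) ∧
      (∀ x ∈ M, ∀ y ∈ M, x * y = y * x) ∧ ∃ p : ℕ, p.Prime ∧ ∀ x ∈ M, x ^ p = 1 := by
  obtain ⟨M, ⟨h1, h2, h3⟩, h4⟩ := (wellFounded_lt (α := Subgroup A)).has_min
    {M | M.Normal ∧ M ≤ H ∧ M ≠ ⊥} ⟨H, hH, le_rfl, h⟩
  have hmin : ∀ N : Subgroup A, N.Normal → N ≤ M → N ≠ ⊥ → N = M := fun N a b c =>
    b.eq_or_lt.resolve_right (h4 N ⟨a, b.trans h2, c⟩)
  have hnt : Nontrivial M := (Subgroup.nontrivial_iff_ne_bot M).2 h3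
  have hc : ∀ x ∈ M, ∀ y ∈ M, x * y = y * x := by
    have hsM : Group.IsSolvable M :=
      Group.isSolvable_of_isSolvable_injective (Subgroup.inclusion_injective h2)
    have h5 : ⁅M, M⁆ < M := by
      have h6 := Group.IsSolvable.commutator_lt_top_of_nontrivial M
      rw [← Subgroup.map_subtype_lt_map_subtype, Subgroup.map_subtype_commutator,
        ← MonoidHom.range_eq_map, M.range_subtype] at h6
      exact h6
    have h6 : ⁅M, M⁆ = ⊥ := by
      by_contra h7
      exact h5.ne (hmin _ inferInstance h5.le h7)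
    intro x hx y hy
    have h7 := Subgroup.commutator_mem_commutator hx hy
    rw [h6, Subgroup.mem_bot] at h7
    exact commutatorElement_eq_one_iff_mul_comm.1 h7
  refine ⟨M, h1, h2, h3, hmin, hc, ?_⟩
  obtain ⟨p, hp, hd⟩ := Nat.exists_prime_and_dvd (Finite.one_lt_card (α := M)).ne'
  have : Fact p.Prime := ⟨hp⟩
  obtain ⟨x, hx⟩ := exists_prime_orderOf_dvd_card' p hd
  let N : Subgroup A :=
    { carrier := {y | y ∈ M ∧ y ^ p = 1}
      mul_mem' := fun {a b} ha hb => ⟨M.mul_mem ha.1 hb.1, by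
        rw [Commute.mul_pow (hc a ha.1 b hb.1), ha.2, hb.2, mul_one]⟩
      one_mem' := ⟨M.one_mem, one_pow p⟩
      inv_mem' := fun {a} ha => ⟨M.inv_mem ha.1, by rw [inv_pow, ha.2, inv_one]⟩ }
  have hN : N = M := by
    refine hmin N ⟨fun y hy g => ⟨h1.conj_mem y hy.1 g, ?_⟩⟩ (fun y hy => hy.1) fun h0 => ?_
    · rw [conj_pow, hy.2, mul_one, mul_inv_cancel]
    · have h5 : (x : A) ∈ N := ⟨x.2, by rw [← hx, ← Subgroup.coe_pow, pow_orderOf_eq_one]; rfl⟩
      rw [h0, Subgroup.mem_bot] at h5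
      rw [show x = 1 from Subtype.ext h5, orderOf_one] at hx
      exact hp.one_lt.ne hx
  refine ⟨p, hp, fun y hy => ?_⟩
  rw [← hN] at hy
  exact hy.2

section Aut

variable {M : Type} [CommGroup M] {p q : ℕ}

theorem fix_of_fix (hpq : p.Coprime q) (hp : ∀ x : M, x ^ p = 1) {f : MulAut M} (hf : f ^ q = 1)
    {u : M} (h : f (f u * u⁻¹) = f u * u⁻¹) : f u * u⁻¹ = 1 := by
  have e : ∀ n : ℕ, (f ^ n) u = (f u * u⁻¹) ^ n * u := by
    intro n
    induction n with
    | zero => simp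
    | succ n ih =>
      rw [pow_succ', MulAut.mul_apply, ih, map_mul, map_pow, h, pow_succ, mul_assoc,
        inv_mul_cancel_right]
  have e1 := e q
  rw [hf, MulAut.one_apply, right_eq_mul] at e1
  have e2 := pow_gcd_eq_one.2 ⟨hp (f u * u⁻¹), e1⟩
  rwa [hpq.gcd_eq_one, pow_one] at e2

theorem fix_of_iter (hpq : p.Coprime q) (hp : ∀ x : M, x ^ p = 1) {f : MulAut M} (hf : f ^ q = 1)
    (n : ℕ) : ∀ u : M, (fun u => f u * u⁻¹)^[n + 1] u = 1 → f u = u := by
  induction n with
  | zero => exact fun u h => mul_inv_eq_one.1 h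
  | succ n ih => exact fun u h => mul_inv_eq_one.1 (fix_of_fix hpq hp hf (ih _ h))

/-- a regular orbit -/
theorem reg [Finite M] (hpq : p.Coprime q) (hp : ∀ x : M, x ^ p = 1) (S : Set (MulAut M))
    (hc : ∀ f ∈ S, ∀ g ∈ S, f * g = g * f) (hq : ∀ f ∈ S, f ^ q = 1) :
    ∃ v : M, ∀ f ∈ S, f v = v → f = 1 := by
  have : Finite (MulAut M) := Finite.of_injective _ DFunLike.coe_injective
  obtain ⟨v, hv⟩ := Finite.exists_min fun v : M => Set.ncard {f | f ∈ S ∧ f v = v}
  refine ⟨v, fun r hr hrv => ?_⟩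
  by_contra hne
  obtain ⟨u, hu⟩ : ∃ u, r u ≠ u := by
    by_contra h
    push Not at h
    exact hne (MulEquiv.ext h)
  refine (hv (v * (r u * u⁻¹))).not_gt (Set.ncard_lt_ncard ⟨fun s hs => ⟨hs.1, ?_⟩, fun h => ?_⟩
    (Set.toFinite _))
  · have e : ∀ x, r (s x) = s (r x) := fun x => by
      rw [← MulAut.mul_apply, hc r hr s hs.1, MulAut.mul_apply]
    have h1 : s v * (s (r u) * (s u)⁻¹) = v * (r u * u⁻¹) := by
      have := hs.2
      rwa [map_mul, map_mul, map_inv] at this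
    have h2 : r (u * (s u)⁻¹) * (u * (s u)⁻¹)⁻¹ = s v * v⁻¹ := by
      rw [map_mul, map_inv, e, eq_mul_inv_of_mul_eq h1]
      apply Additive.ofMul.injective
      simp only [ofMul_mul, ofMul_inv]
      abel
    have h3 := fix_of_fix hpq hp (hq r hr) (u := u * (s u)⁻¹)
      (by rw [h2, map_mul, map_inv, e, hrv])
    rw [h2] at h3
    exact mul_inv_eq_one.1 h3
  · have h1 := (h ⟨hr, hrv⟩).2
    rw [map_mul, hrv, mul_right_inj] at h1
    exact hu (mul_inv_eq_one.1 (fix_of_fix hpq hp (hq r hr) h1))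

end Aut

/-- a minimal normal subgroup is centralised by `H` -/
theorem central {A : Type} [Group A] [Finite A] {H U M : Subgroup A} (hH : H.Normal)
    (hcov : ∀ h ∈ H, ∃ a : A, a * h * a⁻¹ ∈ U) (hs : Group.IsSolvable H)
    (hU : Group.IsNilpotent U) [hM : M.Normal] (hMH : M ≤ H) (h0 : M ≠ ⊥)
    (hmin : ∀ N : Subgroup A, N.Normal → N ≤ M → N ≠ ⊥ → N = M)
    (hc : ∀ x ∈ M, ∀ y ∈ M, x * y = y * x) {p : ℕ} (hp : p.Prime) (hMp : ∀ x ∈ M, x ^ p = 1) :
    ∀ h ∈ H, ∀ x ∈ M, h * x = x * h := by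
  let φ : A →* MulAut M := MulAut.conjNormal
  let ψ := φ.rangeRestrict
  have hψ : Function.Surjective ψ := φ.rangeRestrict_surjective
  have hone : ∀ h : A, ψ h = 1 ↔ ∀ x ∈ M, h * x = x * h := fun h => by
    constructor
    · intro e x hx
      have e1 : φ h = 1 := congrArg Subtype.val e
      have e2 := MulAut.conjNormal_apply h (⟨x, hx⟩ : M)
      rw [show MulAut.conjNormal h = 1 from e1] at e2
      exact (mul_inv_eq_iff_eq_mul.1 e2.symm)
    · intro e
      refine Subtype.ext (MulEquiv.ext fun x => Subtype.ext ?_)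
      exact (MulAut.conjNormal_apply h x).trans (mul_inv_eq_iff_eq_mul.2 (e x x.2))
  by_contra hne
  have h1 : H.map ψ ≠ ⊥ := fun e => hne fun h hh => (hone h).1 <| by
    have := Subgroup.mem_map_of_mem ψ hh
    rwa [e, Subgroup.mem_bot] at this
  have : Finite φ.range := Finite.of_surjective _ hψ
  obtain ⟨R, r1, r2, r3, -, r5, q, hq, r6⟩ := chief (H.map ψ) (hH.map ψ hψ)
    (Group.isSolvable_of_surjective (ψ.subgroupMap_surjective H)) h1
  obtain ⟨⟨g, hg⟩, hg1⟩ := Subgroup.ne_bot_iff_exists_ne_one.1 r3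
  obtain ⟨h, hh, rfl⟩ := r2 hg
  have hg2 : ψ h ≠ 1 := fun e => hg1 (Subtype.ext e)
  have hS : ∀ f ∈ R.map φ.range.subtype, f ^ q = 1 := by
    rintro _ ⟨f, hf, rfl⟩
    rw [← map_pow, r6 f hf, map_one]
  by_cases hpq : p = q
  · subst hpq
    have : Fact p.Prime := ⟨hp⟩
    have hP : IsPGroup p (R.map φ.range.subtype) := fun f =>
      ⟨1, Subtype.ext (by rw [pow_one]; exact hS f f.2)⟩
    obtain ⟨x, hx⟩ := Subgroup.ne_bot_iff_exists_ne_one.1 h0
    have hd : p ∣ Nat.card M := by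
      rw [← orderOf_eq_prime (x := x) (Subtype.ext (hMp x x.2)) hx]
      exact orderOf_dvd_natCard x
    obtain ⟨b, hb, hb1⟩ := hP.exists_fixed_point_of_prime_dvd_card_of_fixed_point M hd
      (a := 1) fun f => map_one (f : MulAut M)
    have hR : (R.comap ψ).Normal := r1.comap ψ
    have hN := hmin (M ⊓ Subgroup.centralizer (R.comap ψ : Set A)) inferInstance inf_le_left
      (Subgroup.ne_bot_iff_exists_ne_one.2 ⟨⟨b, b.2, fun y hy => ?_⟩,
        fun e => hb1 (Subtype.ext (congrArg Subtype.val e).symm)⟩)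
    · refine hg2 ((hone h).2 fun x hx => ?_)
      rw [← hN] at hx
      exact hx.2 h hg
    · have e1 : φ y b = b := hb ⟨φ y, ψ y, hy, rfl⟩
      have e2 := MulAut.conjNormal_apply y b
      rw [show MulAut.conjNormal y b = b from e1] at e2
      exact mul_inv_eq_iff_eq_mul.1 e2.symm
  · have hco : p.Coprime q := (Nat.coprime_primes hp hq).2 hpq
    let : CommGroup M := { (inferInstance : Group M) with
      mul_comm := fun x y => Subtype.ext (hc x x.2 y y.2) }
    have hp' : ∀ x : M, x ^ p = 1 := fun x => Subtype.ext (hMp x x.2)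
    obtain ⟨v, hv⟩ := reg hco hp' (R.map φ.range.subtype : Set (MulAut M)) (by
      rintro _ ⟨f, hf, rfl⟩ _ ⟨g, hg, rfl⟩
      rw [← map_mul, r5 f hf g hg, map_mul]) hS
    obtain ⟨a, ha⟩ := hcov v (hMH v.2)
    obtain ⟨b, hb⟩ := hcov h hh
    obtain ⟨n, hn⟩ := (Subgroup.isNilpotent_iff_lowerCentralSeries U).1 hU
    let r : A := a⁻¹ * b * h * (a⁻¹ * b)⁻¹
    have hr : ψ r ∈ R := by
      rw [map_mul, map_mul, map_inv]
      exact r1.conj_mem _ hg _
    have hr' : φ r ∈ R.map φ.range.subtype := ⟨ψ r, hr, rfl⟩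
    have hrU : a * r * a⁻¹ ∈ U := by
      rwa [show a * r * a⁻¹ = b * h * b⁻¹ by simp only [r]; group]
    have key : ∀ m, a * ((fun u : M => φ r u * u⁻¹)^[m] v : M) * a⁻¹ ∈ U.lowerCentralSeries m := by
      intro m
      induction m with
      | zero => exact ha
      | succ m ih =>
        rw [Function.iterate_succ_apply', Subgroup.lowerCentralSeries_succ,
          Subgroup.commutator_comm]
        have e := Subgroup.commutator_mem_commutator hrU ih
        generalize (fun u : M => φ r u * u⁻¹)^[m] v = w at e ⊢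
        have e1 : ((φ r w * w⁻¹ : M) : A) = r * w * r⁻¹ * (w : A)⁻¹ := by
          rw [← MulAut.conjNormal_apply]
          rfl
        rw [e1]
        rwa [show ⁅a * r * a⁻¹, a * w * a⁻¹⁆ = a * (r * w * r⁻¹ * (w : A)⁻¹) * a⁻¹ by
          rw [commutatorElement_def]; group] at e
    have e := U.lowerCentralSeries_antitone n.le_succ (key (n + 1))
    rw [hn, Subgroup.mem_bot, conj_eq_one_iff] at e
    have e1 : ψ r = 1 := Subtype.ext (hv _ hr' (fix_of_iter hco hp' (hS _ hr') n v (Subtype.ext e)))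
    rw [map_mul, map_mul, map_inv, conj_eq_one_iff] at e1
    exact hg2 e1

end BrP

theorem br_ok : StBr := by
  intro A _ _
  generalize hn : Nat.card A = n
  induction n using Nat.strong_induction_on generalizing A with
  | _ n ih =>
  intro H U hH hUH hcov hs hU
  by_cases h0 : H = ⊥
  · subst h0
    infer_instance
  obtain ⟨M, hM, hMH, hM0, hmin, hc, p, hp, hMp⟩ := BrP.chief H hH hs h0
  have hcen := BrP.central hH hcov hs hU hMH hM0 hmin hc hp hMp
  let π := QuotientGroup.mk' M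
  have hπ : Function.Surjective π := QuotientGroup.mk'_surjective M
  have hlt : Nat.card (A ⧸ M) < n := by
    rw [← hn, Subgroup.card_eq_card_quotient_mul_card_subgroup M]
    exact lt_mul_of_one_lt_right Nat.card_pos ((Subgroup.one_lt_card_iff_ne_bot M).2 hM0)
  have hnil : Group.IsNilpotent (H.map π) := by
    refine ih _ hlt (A ⧸ M) rfl (H.map π) (U.map π) (hH.map π hπ) (Subgroup.map_mono hUH) ?_
      (Group.isSolvable_of_surjective (π.subgroupMap_surjective H))
      (Group.nilpotent_of_surjective _ (π.subgroupMap_surjective U))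
    rintro _ ⟨h, hh, rfl⟩
    obtain ⟨a, ha⟩ := hcov h hh
    exact ⟨π a, _, ha, by rw [map_mul, map_mul, map_inv]⟩
  refine Subgroup.isNilpotent_of_ker_le_center (π.subgroupMap H) fun x hx => ?_
  have hx' : (x : A) ∈ M := (QuotientGroup.eq_one_iff _).1 (congrArg Subtype.val hx)
  exact Subgroup.mem_center_iff.2 fun g => Subtype.ext (hcen g g.2 x hx')

end Pool.Agent.P.MP_169bcc_al.NC
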