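import Pool.Agent.P.MP_169bcc_al.NC.Main
import Pool.Agent.P.MP_169bcc_al.Basic

/-!
From the Lie algebra theorem to groups.
-/

open scoped commutatorElement

noncomputable section

namespace Pool.Agent.P.MP_169bcc_al.NC

namespace FinP

attribute [local instance] GrL.ring GrL.alg

variable {K : Type} [Field K] {A : Type} [Group A] {H : Subgroup A} (Γ : GrL K H)

theorem π_one (d : ℕ) : Γ.π d 1 = 0 := Γ.π_zero d 1 (one_mem _)

theorem π_inv (d : ℕ) {x : A} (hx : x ∈ H.lowerCentralSeries d) : Γ.π d x⁻¹ = -Γ.π d x := by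
  have := Γ.π_mul d x hx x⁻¹ (inv_mem hx)
  rw [mul_inv_cancel, π_one] at this
  exact eq_neg_of_add_eq_zero_right this.symm

/-- The image of `U` in the layer `d`. -/
def lay (U : Subgroup A) (d : ℕ) : AddSubgroup Γ.L where
  carrier := {v | ∃ x ∈ H.lowerCentralSeries d, x ∈ U ∧ Γ.π d x = v}
  zero_mem' := ⟨1, one_mem _, one_mem _, π_one Γ d⟩
  add_mem' := by
    rintro _ _ ⟨x, hx, hxU, rfl⟩ ⟨y, hy, hyU, rfl⟩
    exact ⟨x * y, mul_mem hx hy, mul_mem hxU hyU, Γ.π_mul d x hx y hy⟩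
  neg_mem' := by
    rintro _ ⟨x, hx, hxU, rfl⟩
    exact ⟨x⁻¹, inv_mem hx, inv_mem hxU, π_inv Γ d hx⟩

theorem lay_kills {U : Subgroup A} {k : ℕ} (hU : U.lowerCentralSeries k = ⊥) :
    Kills (Hom (lay Γ U)) (Hom (lay Γ U)) k := by
  have key : ∀ w : List Γ.L, (∀ y ∈ w, y ∈ Hom (lay Γ U)) → ∀ x ∈ Hom (lay Γ U),
      ∃ d, ∃ u ∈ H.lowerCentralSeries d, u ∈ U.lowerCentralSeries w.length ∧
        adw w x = Γ.π d u := by
    intro w
    induction w with
    | nil => exact fun _ x ⟨d, u, h1, h2, h3⟩ => ⟨d, u, h1, h2, h3.symm⟩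
    | cons y w ih =>
      intro hw x hx
      obtain ⟨d, u, h1, h2, h3⟩ := ih (fun z hz => hw z (List.mem_cons_of_mem _ hz)) x hx
      obtain ⟨i, v, h4, h5, rfl⟩ := hw y List.mem_cons_self
      refine ⟨i + d + 1, ⁅v, u⁆, lcs_comm H h4 h1, ?_, by rw [adw_cons, h3, Γ.π_lie i d v h4 u h1]⟩
      rw [List.length_cons, Subgroup.lowerCentralSeries_succ, Subgroup.commutator_comm]
      exact Subgroup.commutator_mem_commutator h5 h2
  intro w hw hwU x hx
  obtain ⟨d, u, -, h2, h3⟩ := key w hwU x hx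
  have := U.lowerCentralSeries_antitone hw h2
  rw [hU, Subgroup.mem_bot] at this
  rw [h3, this, π_one]

/-- The layers, with degrees starting at one. -/
def sh : ℕ → AddSubgroup Γ.L
  | 0 => ⊥
  | d + 1 => lay Γ ⊤ d

theorem hom_sh : Hom (sh Γ) = Hom (lay Γ ⊤) := by
  refine Set.Subset.antisymm ?_ fun x ⟨d, hx⟩ => ⟨d + 1, hx⟩
  rintro x ⟨_ | d, hx⟩
  · exact ⟨0, AddSubgroup.mem_bot.1 hx ▸ zero_mem _⟩
  · exact ⟨d, hx⟩

theorem sh_lie : ∀ i j, ∀ x ∈ sh Γ i, ∀ y ∈ sh Γ j, ⁅x, y⁆ ∈ sh Γ (i + j)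
  | 0, _, x, hx, y, _ => by rw [AddSubgroup.mem_bot.1 hx, zero_lie]; exact zero_mem _
  | _ + 1, 0, x, _, y, hy => by rw [AddSubgroup.mem_bot.1 hy, lie_zero]; exact zero_mem _
  | i + 1, j + 1, _, ⟨x, hx, _, rfl⟩, _, ⟨y, hy, _, rfl⟩ => by
    rw [show i + 1 + (j + 1) = i + j + 1 + 1 by omega]
    exact ⟨⁅x, y⁆, lcs_comm H hx hy, trivial, (Γ.π_lie i j x hx y hy).symm⟩

theorem sh_inv (hH : H.Normal) (a : A) : ∀ d, ∀ x ∈ sh Γ d, Γ.ρ a x ∈ sh Γ d
  | 0, x, hx => by rw [AddSubgroup.mem_bot.1 hx, map_zero]; exact zero_mem _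
  | d + 1, _, ⟨y, hy, _, rfl⟩ =>
    ⟨a * y * a⁻¹, (lcs_normal H hH d).conj_mem y hy a, trivial, (Γ.ρ_π a d y hy).symm⟩

theorem π_top {c : ℕ} (h : Kills (Hom (lay Γ ⊤)) (Hom (lay Γ ⊤)) c) : ∀ j,
    ∀ x ∈ H.lowerCentralSeries j, ∀ w : List Γ.L, c ≤ w.length + j →
      (∀ y ∈ w, y ∈ Hom (lay Γ ⊤)) → adw w (Γ.π j x) = 0 := by
  intro j
  induction j with
  | zero => exact fun x hx w hw hwE => h w hw hwE _ ⟨0, x, hx, trivial, rfl⟩
  | succ j ih =>
    intro x hx w hw hwE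
    have hx' := hx
    rw [Subgroup.lowerCentralSeries_succ, Subgroup.commutator_def] at hx'
    have e : Subgroup.closure {g | ∃ g₁ ∈ H.lowerCentralSeries j, ∃ g₂ ∈ H, ⁅g₁, g₂⁆ = g} =
      H.lowerCentralSeries (j + 1) := by
      rw [Subgroup.lowerCentralSeries_succ, Subgroup.commutator_def]
    clear hx
    induction hx' using Subgroup.closure_induction with
    | mem _ hz =>
      obtain ⟨y, hy, z, hz, rfl⟩ := hz
      have h1 := Γ.π_lie j 0 y hy z hz
      have h2 := ih y hy (w ++ [Γ.π 0 z]) (by simp; omega) (by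
        intro u hu
        rcases List.mem_append.1 hu with hu | hu
        · exact hwE u hu
        · exact ⟨0, z, hz, trivial, (List.mem_singleton.1 hu).symm⟩)
      rw [adw_append, adw_cons, adw_nil, ← lie_skew, ← zero_sub, adw_sub, adw_zero, zero_sub,
        neg_eq_zero, h1] at h2
      exact h2
    | one => rw [π_one, adw_zero]
    | mul y z hy hz h1 h2 => rw [Γ.π_mul _ y (e ▸ hy) z (e ▸ hz), adw_add, h1, h2, add_zero]
    | inv y hy h1 => rw [π_inv Γ _ (e ▸ hy), ← zero_sub, adw_sub, adw_zero, h1, sub_zero]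

end FinP

attribute [local instance] GrL.ring GrL.alg in
open FinP in
/-- The class of `H` is bounded. -/
theorem cls (hGL : StGL) (hKa : StKa) (hG : StGrF) (hUn : StUni) (hS : StStep) (hCh : StCh)
    (hBr : StBr) (n k : ℕ) : ∃ c : ℕ,
    ∀ (A : Type) [Group A] [Finite A] (H U : Subgroup A) [H.Normal], H.index = n → U ≤ H →
      (∀ h ∈ H, ∃ a : A, a * h * a⁻¹ ∈ U) → Group.IsSolvable H → U.lowerCentralSeries k = ⊥ →
      (∀ p : ℕ, p.Prime → p ∣ Nat.card H → PCyc p (A ⧸ H)) → H.lowerCentralSeries c = ⊥ := by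
  choose c hc using main_ok hKa hG hUn hS n k
  refine ⟨(Finset.range (n + 1)).sup c, fun A _ _ H U hH hn hU hcov hs hk hP => ?_⟩
  generalize hC : (Finset.range (n + 1)).sup c = C
  obtain ⟨N, hN⟩ := (Subgroup.isNilpotent_iff_lowerCentralSeries H).1 (hBr A H U hH hU hcov hs
    ((Subgroup.isNilpotent_iff_lowerCentralSeries U).2 ⟨k, hk⟩))
  have h1 : H.lowerCentralSeries (C + 1) = H.lowerCentralSeries C := by
    by_contra hne
    obtain ⟨p, hp, hpd, hχ⟩ := hCh A _ _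
      (lt_of_le_of_ne (H.lowerCentralSeries_antitone C.le_succ) hne)
      ((lcs_add H C C).trans (H.lowerCentralSeries_antitone (by omega)))
    have := Fact.mk hp
    have hn0 : n ≠ 0 := hn ▸ Subgroup.index_ne_zero_of_finite
    obtain ⟨e, m, hm, he⟩ := Nat.exists_eq_pow_mul_and_not_dvd hn0 p hp.ne_one
    obtain ⟨χ, h1, h2, x, hx, h3⟩ := hχ (AlgebraicClosure (ZMod p))
    obtain ⟨Γ⟩ := hGL (AlgebraicClosure (ZMod p)) A H hH
    have : NeZero ((m : ℕ) : ZMod p) := ⟨fun h => hm ((ZMod.natCast_eq_zero_iff _ _).1 h)⟩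
    obtain ⟨ω, hω⟩ := HasEnoughRootsOfUnity.exists_primitiveRoot (AlgebraicClosure (ZMod p)) m
    let ρ : A ⧸ H →* Module.End (AlgebraicClosure (ZMod p)) Γ.L :=
      QuotientGroup.lift H Γ.ρ Γ.ρ_H
    have hsub : Hom (lay Γ ⊤) ⊆ Hom (lay Γ H) := fun _ ⟨d, y, hy, _, e⟩ =>
      ⟨d, y, hy, H.lowerCentralSeries_le_self d hy, e⟩
    have hK := hc m p e _ (A ⧸ H) ω hp hn he
      (hP p hp (hpd.trans (Subgroup.card_dvd_of_le (H.lowerCentralSeries_le_self C)))) hω
      Γ.L ℕ ρ (sh Γ) (Hom (lay Γ U))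
      ⟨fun q => QuotientGroup.induction_on q fun a => Γ.ρ_lie a, sh_lie Γ,
        fun q => QuotientGroup.induction_on q fun a => sh_inv Γ hH a, by
          rw [hom_sh]
          rintro _ ⟨d, y, hy, -, rfl⟩
          obtain ⟨a, ha⟩ := hcov y (H.lowerCentralSeries_le_self d hy)
          exact ⟨a, d, a * y * a⁻¹, (lcs_normal H hH d).conj_mem y hy a, ha,
            (Γ.ρ_π a d y hy).symm⟩, lay_kills Γ hk,
        ⟨N, hom_sh Γ ▸ (lay_kills Γ hN).mono hsub hsub le_rfl⟩⟩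
      fun g hg x _ => by rw [Subgroup.mem_bot.1 hg, map_one, Module.End.one_apply]
    rw [hom_sh] at hK
    have hle : c m ≤ C := hC ▸ Finset.le_sup (f := c) (Finset.mem_range.2 (Nat.lt_succ_of_le
      (Nat.le_of_dvd (Nat.pos_of_ne_zero hn0) (he ▸ Dvd.intro_left _ rfl))))
    exact h3 (Γ.sep C χ h1 h2 x hx (π_top Γ hK C x hx [] (by simpa using hle) (by simp)))
  have h2 : ∀ j, H.lowerCentralSeries (C + j) = H.lowerCentralSeries C := by
    intro j
    induction j with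
    | zero => rfl
    | succ j ih => rw [← add_assoc, Subgroup.lowerCentralSeries_succ, ih,
        ← Subgroup.lowerCentralSeries_succ, h1]
  rw [← h2 N, eq_bot_iff, ← hN]
  exact H.lowerCentralSeries_antitone (by omega)

/-- The index of `U` is bounded once the class of `H` is. -/
theorem idx {A : Type} [Group A] [Finite A] (H U : Subgroup A) [H.Normal] (hU : U ≤ H)
    (hcov : ∀ h ∈ H, ∃ a : A, a * h * a⁻¹ ∈ U) {c : ℕ} (hc : H.lowerCentralSeries c = ⊥) :
    (U.subgroupOf H).index ≤ H.index ^ (c * H.index) := by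
  have h := acov_subgroupOf U H Subgroup.index_ne_zero_of_finite hcov
  rw [sup_of_le_right hU] at h
  exact h.index_le_pow (Y := ⊤) Subgroup.index_ne_zero_of_finite (by
    rw [← Subgroup.map_eq_bot_iff_of_injective _ H.subtype_injective,
      Subgroup.top_subtype_lowerCentralSeries, hc]) (sup_top_eq _)

end Pool.Agent.P.MP_169bcc_al.NC
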