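import Pool.Agent.P.MP_169bcc_al.NC.Spec

/-!
Package Fix: fixed points of `p`-groups, cyclic steps, characters.
-/

open scoped commutatorElement

noncomputable section

namespace Pool.Agent.P.MP_169bcc_al.NC

namespace FixP

/-- A second fixed point. -/
theorem fix {p : ℕ} [Fact p.Prime] {H α : Type} [Group H] [Finite α] (φ : H →* Equiv.Perm α)
    (h : ∀ x : H, ∃ n : ℕ, φ (x ^ p ^ n) = 1) (hd : p ∣ Nat.card α) {a : α}
    (ha : ∀ x, φ x a = a) : ∃ b, b ≠ a ∧ ∀ x, φ x b = b := by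
  have hP : IsPGroup p φ.range := by
    rintro ⟨_, x, rfl⟩
    obtain ⟨n, hn⟩ := h x
    exact ⟨n, Subtype.ext (by rw [map_pow] at hn; exact hn)⟩
  have ha' : a ∈ MulAction.fixedPoints φ.range α := by
    rintro ⟨_, x, rfl⟩
    exact ha x
  obtain ⟨b, hb, hab⟩ := hP.exists_fixed_point_of_prime_dvd_card_of_fixed_point α hd ha'
  exact ⟨b, hab.symm, fun x => hb ⟨φ x, x, rfl⟩⟩

/-- A vector that is fixed modulo a stable subgroup. -/
theorem fixv {p e : ℕ} {K L Q : Type} [Field K] [CharP K p] [AddCommGroup L] [Module K L]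
    [Group Q] (ρ : Q →* Module.End K L) (X C : AddSubgroup L) (hp : p.Prime) [Finite X]
    (hX : ∀ q, ∀ x ∈ X, ρ q x ∈ X) (hC : ∀ q, ∀ x ∈ C, ρ q x ∈ C)
    (hR : ∀ q, ∀ x ∈ X, ρ (q ^ p ^ e) x = x) (hn : ¬ X ≤ C) :
    ∃ z ∈ X, z ∉ C ∧ ∀ q, ρ q z - z ∈ C := by
  have := Fact.mk hp
  let α := X.map (QuotientAddGroup.mk' C)
  have : Finite α := Set.Finite.to_subtype ((Set.toFinite (X : Set L)).image _)
  let ψ : Q → L ⧸ C →+ L ⧸ C := fun q =>
    QuotientAddGroup.map C C (ρ q).toAddMonoidHom (hC q)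
  have hψ : ∀ q (x : L), ψ q (x : L ⧸ C) = (ρ q x : L) := fun _ _ => rfl
  letI : MulAction Q α :=
    { smul := fun q a => ⟨ψ q a.1, by
        obtain ⟨_, x, hx, rfl⟩ := a
        exact ⟨ρ q x, hX q x hx, rfl⟩⟩
      one_smul := by
        rintro ⟨_, x, hx, rfl⟩
        refine Subtype.ext ((hψ 1 x).trans ?_)
        rw [map_one]
        rfl
      mul_smul := by
        rintro q q' ⟨_, x, hx, rfl⟩
        refine Subtype.ext ((hψ (q * q') x).trans ?_)
        rw [map_mul]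
        rfl }
  obtain ⟨x, hx, hxC⟩ := SetLike.not_le_iff_exists.1 hn
  have hd : p ∣ Nat.card α := by
    have h1 : p • x = 0 := by rw [← Nat.cast_smul_eq_nsmul K, CharP.cast_eq_zero, zero_smul]
    have h2 : addOrderOf (⟨(x : L ⧸ C), x, hx, rfl⟩ : α) = p := by
      refine addOrderOf_eq_prime (Subtype.ext ?_) fun h => hxC ?_
      · change QuotientAddGroup.mk' C (p • x) = 0
        rw [h1, map_zero]
      · exact (QuotientAddGroup.eq_zero_iff x).1 (congrArg Subtype.val h)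
    exact h2 ▸ addOrderOf_dvd_natCard _
  obtain ⟨⟨_, z, hz, rfl⟩, hb, hb'⟩ := fix (MulAction.toPermHom Q α) (a := (0 : α))
    (fun q => ⟨e, Equiv.ext fun a => by
      obtain ⟨_, y, hy, rfl⟩ := a
      exact Subtype.ext ((hψ _ y).trans (congrArg _ (hR q y hy)))⟩) hd
    fun q => Subtype.ext (map_zero (ψ q))
  refine ⟨z, hz, fun h => hb (Subtype.ext ((QuotientAddGroup.eq_zero_iff z).2 h)), fun q => ?_⟩
  exact QuotientAddGroup.eq_iff_sub_mem.1 ((hψ q z).symm.trans (congrArg Subtype.val (hb' q)))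

/-- A proper subgroup above the commutator subgroup lies in the kernel of a map onto a nontrivial
cyclic group. -/
theorem onto {G : Type} [Group G] [Finite G] (Y : Subgroup G) (h1 : Y ≠ ⊤)
    (h2 : commutator G ≤ Y) : ∃ (n : ℕ) (f : G →* Multiplicative (ZMod n)), 1 < n ∧
      Function.Surjective f ∧ ∀ y ∈ Y, f y = 1 := by
  have := Subgroup.Normal.of_commutator_le G h2
  have hc := Subgroup.Normal.quotient_commutative_iff_commutator_le.2 h2
  letI : CommGroup (G ⧸ Y) := { (inferInstance : Group (G ⧸ Y)) with mul_comm := hc.1.1 }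
  obtain ⟨ι, _, n, hn, ⟨e⟩⟩ := CommGroup.equiv_prod_multiplicative_zmod_of_finite (G ⧸ Y)
  obtain ⟨i⟩ : Nonempty ι := by
    by_contra hι
    rw [not_nonempty_iff] at hι
    exact h1 (eq_top_iff.2 fun x _ =>
      (QuotientGroup.eq_one_iff x).1 (e.injective (Subsingleton.elim _ _)))
  refine ⟨n i, (Pi.evalMonoidHom _ i).comp (e.toMonoidHom.comp (QuotientGroup.mk' Y)), hn i,
    (Function.surjective_eval i).comp (e.surjective.comp (QuotientGroup.mk'_surjective Y)),
    fun y hy => ?_⟩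
  rw [MonoidHom.comp_apply, MonoidHom.comp_apply,
    show QuotientGroup.mk' Y y = 1 from (QuotientGroup.eq_one_iff y).2 hy, map_one, map_one]

end FixP

theorem fix_ok : StFix := by
  intro p e K L Q _ _ _ _ _ _ ρ R X W hp hR hi hfin hX hfix hcov
  let C : AddSubgroup L :=
    { carrier := {x | ∀ q, ρ q x ∈ W}
      add_mem' := fun ha hb q => by rw [map_add]; exact W.add_mem (ha q) (hb q)
      zero_mem' := fun q => by rw [map_zero]; exact W.zero_mem
      neg_mem' := fun ha q => by rw [map_neg]; exact W.neg_mem (ha q) }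
  have hCW : C ≤ W := fun x hx => by simpa using hx 1
  have hC : ∀ q, ∀ x ∈ C, ρ q x ∈ C := fun q x hx q' => by
    have := hx (q' * q)
    rwa [map_mul] at this
  by_cases hn : X ≤ C
  · exact hn.trans hCW
  obtain ⟨z, hz, hzC, h⟩ := FixP.fixv (e := e) ρ X C hp hX hC
    (fun q => hfix _ (hi ▸ R.pow_index_mem q)) hn
  obtain ⟨q₀, hq₀⟩ := hcov z hz
  have hzW : z ∈ W := by
    have := W.sub_mem hq₀ (hCW (h q₀))
    rwa [sub_sub_cancel] at this
  refine absurd (fun q => ?_) hzC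
  have := W.add_mem (hCW (h q)) hzW
  rwa [sub_add_cancel] at this

theorem ss_ok : StSS := by
  classical
  rintro Q _ ⟨m, S, h0, hm, hN, hS⟩ N R hn hr hlt
  have hex : ∃ i, ¬ S i ⊓ R ≤ N := ⟨m, by rw [hm, top_inf_eq]; exact hlt.not_ge⟩
  have hle : Nat.find hex ≤ m := Nat.find_min' hex (by rw [hm, top_inf_eq]; exact hlt.not_ge)
  have h1 := Nat.find_spec hex
  have hne : Nat.find hex ≠ 0 := fun h => h1 (by rw [h, h0, bot_inf_eq]; exact bot_le)
  obtain ⟨j, hj⟩ := Nat.exists_eq_succ_of_ne_zero hne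
  have h2 : S j ⊓ R ≤ N := not_not.1 (Nat.find_min hex (by omega))
  rw [hj] at h1 hle
  obtain ⟨g₀, hg₀⟩ := hS j hle
  have := hN j
  have := hN (j + 1)
  have h3 : (S (j + 1) ⊓ R).map (QuotientGroup.mk' (S j)) ≤
      Subgroup.zpowers (QuotientGroup.mk' (S j) g₀) := by
    refine (Subgroup.map_mono inf_le_left).trans ?_
    rw [hg₀, Subgroup.map_sup, MonoidHom.map_zpowers,
      (Subgroup.map_eq_bot_iff _).2 (QuotientGroup.ker_mk' _).ge, bot_sup_eq]
  obtain ⟨k, hk⟩ := (Subgroup.le_zpowers_iff _ _).1 h3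
  obtain ⟨g, hg, hgk⟩ : QuotientGroup.mk' (S j) g₀ ^ k ∈
      (S (j + 1) ⊓ R).map (QuotientGroup.mk' (S j)) := hk ▸ Subgroup.mem_zpowers _
  have h4 : S (j + 1) ⊓ R ≤ N ⊔ Subgroup.zpowers g := fun t ht => by
    have : QuotientGroup.mk' (S j) t ∈ Subgroup.zpowers (QuotientGroup.mk' (S j) g) := by
      rw [hgk, ← hk]
      exact Subgroup.mem_map_of_mem _ ht
    obtain ⟨l, hl⟩ := this
    have h5 : (g ^ l)⁻¹ * t ∈ S j := QuotientGroup.eq.1 ((map_zpow _ g l).trans hl)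
    have h6 : (g ^ l)⁻¹ * t ∈ N := h2 ⟨h5, R.mul_mem (R.inv_mem (R.zpow_mem hg.2 l)) ht.2⟩
    rw [← mul_inv_cancel_left (g ^ l) t]
    exact Subgroup.mul_mem _ (Subgroup.mem_sup_right (Subgroup.zpow_mem_zpowers g l))
      (Subgroup.mem_sup_left h6)
  refine ⟨g, hg.2, fun h => h1 (h4.trans (sup_le le_rfl (Subgroup.zpowers_le.2 h))), ?_⟩
  rw [show N ⊔ Subgroup.zpowers g = N ⊔ S (j + 1) ⊓ R from
    le_antisymm (sup_le_sup_left (Subgroup.zpowers_le.2 hg) _) (sup_le le_sup_left h4)]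
  infer_instance

theorem ch_ok : StCh := by
  classical
  intro A _ _ X Y hlt hc
  obtain ⟨n, f, hn, hf, hY⟩ := FixP.onto (Y.subgroupOf X)
    (fun h => hlt.not_ge (Subgroup.subgroupOf_eq_top.1 h)) (by
      rw [commutator_def, Subgroup.commutator_le]
      exact fun a _ b _ => hc (Subgroup.commutator_mem_commutator a.2 b.2))
  have hd : n ∣ Nat.card X := by
    have := Subgroup.card_dvd_of_surjective f hf
    rwa [Nat.card_congr Multiplicative.toAdd, Nat.card_zmod] at this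
  refine ⟨n.minFac, Nat.minFac_prime hn.ne', (Nat.minFac_dvd n).trans hd, fun K _ _ => ?_⟩
  refine ⟨fun a => if h : a ∈ X then ZMod.castHom (Nat.minFac_dvd n) K (f ⟨a, h⟩).toAdd else 0,
    fun x hx y hy => ?_, fun y hy => ?_, ?_⟩
  · dsimp only
    rw [dif_pos hx, dif_pos hy, dif_pos (X.mul_mem hx hy), ← map_add, ← toAdd_mul, ← map_mul]
    rfl
  · dsimp only
    rw [dif_pos (hlt.le hy), hY _ hy, toAdd_one, map_zero]
  · obtain ⟨x, hx⟩ := hf (Multiplicative.ofAdd 1)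
    refine ⟨x, x.2, ?_⟩
    dsimp only
    rw [dif_pos x.2, Subtype.coe_eta, hx, toAdd_ofAdd, map_one]
    exact one_ne_zero

end Pool.Agent.P.MP_169bcc_al.NC
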