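import Pool.Agent.P.MP_169bcc_al.NC.Spec

/-!
The graded Lie algebra of the lower central series.
-/

open scoped commutatorElement

noncomputable section

namespace Pool.Agent.P.MP_169bcc_al.NC

namespace GLP

variable (K : Type) [Field K] {A : Type} [Group A] (H : Subgroup A)

/-- The relations. -/
def Rel : Submodule K (ℕ × A →₀ K) := Submodule.span K
  {v | (∃ i, ∃ x ∈ H.lowerCentralSeries i, ∃ y ∈ H.lowerCentralSeries i,
      v = Finsupp.single (i, x * y) 1 - (Finsupp.single (i, x) 1 + Finsupp.single (i, y) 1)) ∨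
    ∃ i x, (x ∈ H.lowerCentralSeries (i + 1) ∨ x ∉ H.lowerCentralSeries i) ∧
      v = Finsupp.single (i, x) 1}

/-- The underlying space. -/
def LL : Type := (ℕ × A →₀ K) ⧸ Rel K H

instance : AddCommGroup (LL K H) := inferInstanceAs (AddCommGroup ((ℕ × A →₀ K) ⧸ Rel K H))

instance : Module K (LL K H) := inferInstanceAs (Module K ((ℕ × A →₀ K) ⧸ Rel K H))

/-- The quotient map. -/
def mk : (ℕ × A →₀ K) →ₗ[K] LL K H := (Rel K H).mkQ

/-- The class of a group element. -/
def pi (i : ℕ) (x : A) : LL K H := mk K H (Finsupp.single (i, x) 1)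

variable {K H}

theorem mk_zero {v : ℕ × A →₀ K} (h : v ∈ Rel K H) : mk K H v = 0 :=
  (Submodule.Quotient.mk_eq_zero _).2 h

theorem pi_mul {i : ℕ} {x y : A} (hx : x ∈ H.lowerCentralSeries i)
    (hy : y ∈ H.lowerCentralSeries i) : pi K H i (x * y) = pi K H i x + pi K H i y := by
  have := mk_zero (K := K) (H := H) (Submodule.subset_span (Or.inl ⟨i, x, hx, y, hy, rfl⟩))
  rwa [map_sub, map_add, sub_eq_zero] at this

theorem pi_zero {i : ℕ} {x : A} (hx : x ∈ H.lowerCentralSeries (i + 1)) : pi K H i x = 0 :=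
  mk_zero (Submodule.subset_span (Or.inr ⟨i, x, Or.inl hx, rfl⟩))

theorem pi_out {i : ℕ} {x : A} (hx : x ∉ H.lowerCentralSeries i) : pi K H i x = 0 :=
  mk_zero (Submodule.subset_span (Or.inr ⟨i, x, Or.inr hx, rfl⟩))

theorem pi_one (i : ℕ) : pi K H i 1 = 0 := pi_zero (one_mem _)

theorem lcs_le (i : ℕ) : H.lowerCentralSeries (i + 1) ≤ H.lowerCentralSeries i :=
  H.lowerCentralSeries_antitone (Nat.le_succ i)

theorem lcs_H {i : ℕ} {x : A} (hx : x ∈ H.lowerCentralSeries i) : x ∈ H :=
  H.lowerCentralSeries_antitone (Nat.zero_le i) hx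

theorem comm_mem {i : ℕ} {h z : A} (hh : h ∈ H) (hz : z ∈ H.lowerCentralSeries i) :
    ⁅h, z⁆ ∈ H.lowerCentralSeries (i + 1) := by
  have := lcs_comm H (a := 0) hh hz
  rwa [zero_add] at this

theorem conj_eq (h z : A) : h * z * h⁻¹ = ⁅h, z⁆ * z := by
  rw [commutatorElement_def]; group

theorem conj_mem {i : ℕ} {h z : A} (hh : h ∈ H) (hz : z ∈ H.lowerCentralSeries i) :
    h * z * h⁻¹ ∈ H.lowerCentralSeries i := by
  rw [conj_eq]
  exact mul_mem (lcs_le i (comm_mem hh hz)) hz

theorem pi_conj {i : ℕ} {h z : A} (hh : h ∈ H) (hz : z ∈ H.lowerCentralSeries i) :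
    pi K H i (h * z * h⁻¹) = pi K H i z := by
  rw [conj_eq, pi_mul (lcs_le i (comm_mem hh hz)) hz, pi_zero (comm_mem hh hz), zero_add]

theorem ind {P : LL K H → Prop} (h0 : P 0) (ha : ∀ u v, P u → P v → P (u + v))
    (hs : ∀ (c : K) u, P u → P (c • u))
    (hg : ∀ i x, x ∈ H.lowerCentralSeries i → P (pi K H i x)) (u : LL K H) : P u := by
  obtain ⟨f, rfl⟩ : ∃ f, mk K H f = u := (Rel K H).mkQ_surjective u
  induction f using Finsupp.induction_linear with
  | zero => rwa [map_zero]
  | add f g hf hg => rw [map_add]; exact ha _ _ hf hg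
  | single p c =>
    rw [← mul_one c, ← smul_eq_mul, ← Finsupp.smul_single, map_smul]
    refine hs c _ ?_
    by_cases h : p.2 ∈ H.lowerCentralSeries p.1
    · exact hg _ _ h
    · have := pi_out (K := K) h
      rw [pi] at this
      rwa [this]

section Lift

variable {W : Type} [AddCommGroup W] [Module K W]

theorem hom_ext {f g : LL K H →ₗ[K] W}
    (h : ∀ i x, x ∈ H.lowerCentralSeries i → f (pi K H i x) = g (pi K H i x)) : f = g := by
  refine LinearMap.ext fun u => ?_
  induction u using ind with
  | h0 => simp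
  | ha u v hu hv => rw [map_add, map_add, hu, hv]
  | hs c u hu => rw [map_smul, map_smul, hu]
  | hg i x hx => exact h i x hx

variable (H) in
/-- Families that are additive on each layer. -/
structure Ok (f : ℕ → A → W) : Prop where
  mul : ∀ i, ∀ x ∈ H.lowerCentralSeries i, ∀ y ∈ H.lowerCentralSeries i,
    f i (x * y) = f i x + f i y
  zero : ∀ i, ∀ x ∈ H.lowerCentralSeries (i + 1), f i x = 0

open Classical in
variable (K) in
/-- The universal property. -/
def lift (f : ℕ → A → W) (hf : Ok H f) : LL K H →ₗ[K] W :=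
  (Rel K H).liftQ (Finsupp.linearCombination K fun p : ℕ × A =>
    if p.2 ∈ H.lowerCentralSeries p.1 then f p.1 p.2 else 0) (by
      refine Submodule.span_le.2 ?_
      rintro v (⟨i, x, hx, y, hy, rfl⟩ | ⟨i, x, hx | hx, rfl⟩)
      · simp [hx, hy, mul_mem hx hy, hf.mul i x hx y hy]
      · simp [hf.zero i x hx]
      · simp [hx])

theorem lift_pi {f : ℕ → A → W} (hf : Ok H f) {i : ℕ} {x : A} (hx : x ∈ H.lowerCentralSeries i) :
    lift K f hf (pi K H i x) = f i x := by
  refine ((Rel K H).liftQ_apply _ _).trans ?_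
  simp [hx]

end Lift

theorem ok_ad {i : ℕ} {x : A} (hx : x ∈ H.lowerCentralSeries i) :
    Ok H fun j y => pi K H (i + j + 1) ⁅x, y⁆ where
  mul j y hy z hz := by
    have e : ⁅x, y * z⁆ = ⁅x, y⁆ * (y * ⁅x, z⁆ * y⁻¹) := by
      simp only [commutatorElement_def]; group
    rw [e, pi_mul (lcs_comm H hx hy) (conj_mem (lcs_H hy) (lcs_comm H hx hz)),
      pi_conj (lcs_H hy) (lcs_comm H hx hz)]
  zero j y hy := pi_zero (lcs_comm H (a := i) (b := j + 1) hx hy)

open Classical in
variable (K H) in
/-- The bracket with a generator. -/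
def ad (i : ℕ) (x : A) : LL K H →ₗ[K] LL K H :=
  if h : x ∈ H.lowerCentralSeries i then lift K _ (ok_ad h) else 0

theorem ad_pi {i j : ℕ} {x y : A} (hx : x ∈ H.lowerCentralSeries i)
    (hy : y ∈ H.lowerCentralSeries j) : ad K H i x (pi K H j y) = pi K H (i + j + 1) ⁅x, y⁆ := by
  rw [ad, dif_pos hx, lift_pi _ hy]

theorem ok_br : Ok H (ad K H) where
  mul i x hx z hz := hom_ext fun j y hy => by
    have e : ⁅x * z, y⁆ = x * ⁅z, y⁆ * x⁻¹ * ⁅x, y⁆ := by
      simp only [commutatorElement_def]; group
    rw [LinearMap.add_apply, ad_pi (mul_mem hx hz) hy, ad_pi hx hy, ad_pi hz hy, e,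
      pi_mul (conj_mem (lcs_H hx) (lcs_comm H hz hy)) (lcs_comm H hx hy),
      pi_conj (lcs_H hx) (lcs_comm H hz hy), add_comm]
  zero i x hx := hom_ext fun j y hy => by
    rw [ad_pi (lcs_le i hx) hy, LinearMap.zero_apply]
    refine pi_zero ?_
    have := lcs_comm H hx hy
    rwa [show i + 1 + j + 1 = i + j + 1 + 1 by omega] at this

variable (K H) in
/-- The bracket. -/
def br : LL K H →ₗ[K] LL K H →ₗ[K] LL K H := lift K _ ok_br

theorem br_pi {i j : ℕ} {x y : A} (hx : x ∈ H.lowerCentralSeries i)
    (hy : y ∈ H.lowerCentralSeries j) :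
    br K H (pi K H i x) (pi K H j y) = pi K H (i + j + 1) ⁅x, y⁆ := by
  rw [br, lift_pi _ hx, ad_pi hx hy]

theorem br_anti (u v : LL K H) : br K H u v + br K H v u = 0 := by
  have : br K H + (br K H).flip = 0 := hom_ext fun i x hx => hom_ext fun j y hy => by
    have h2 := lcs_comm H hy hx
    rw [add_comm j i] at h2
    rw [LinearMap.add_apply, LinearMap.add_apply, LinearMap.flip_apply, br_pi hx hy, br_pi hy hx,
      add_comm j i, ← pi_mul (lcs_comm H hx hy) h2, ← commutatorElement_inv x y, mul_inv_cancel,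
      pi_one]
    rfl
  exact LinearMap.congr_fun (LinearMap.congr_fun this u) v

theorem br_self (u : LL K H) : br K H u u = 0 := by
  induction u using ind with
  | h0 => simp
  | ha u v hu hv =>
    simp only [map_add, LinearMap.add_apply, hu, hv, zero_add, add_zero]
    exact br_anti v u
  | hs c u hu => simp [hu]
  | hg i x hx => rw [br_pi hx hx, commutatorElement_self, pi_one]

theorem br_br {i j k n : ℕ} {x y z : A} (hx : x ∈ H.lowerCentralSeries i)
    (hy : y ∈ H.lowerCentralSeries j) (hz : z ∈ H.lowerCentralSeries k)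
    (hn : n = i + j + 1 + k + 1) :
    ⁅⁅x, y⁆, y * z * y⁻¹⁆ ∈ H.lowerCentralSeries n ∧
      br K H (br K H (pi K H i x) (pi K H j y)) (pi K H k z) =
        pi K H n ⁅⁅x, y⁆, y * z * y⁻¹⁆ := by
  subst hn
  refine ⟨lcs_comm H (lcs_comm H hx hy) (conj_mem (lcs_H hy) hz), ?_⟩
  rw [br_pi hx hy, ← pi_conj (lcs_H hy) hz, br_pi (lcs_comm H hx hy) (conj_mem (lcs_H hy) hz)]

theorem br_jac (u v w : LL K H) :
    br K H (br K H u v) w + br K H (br K H v w) u + br K H (br K H w u) v = 0 := by
  induction u using ind with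
  | h0 => simp
  | ha u u' h h' =>
    simp only [map_add, LinearMap.add_apply]
    linear_combination (norm := module) h + h'
  | hs c u h =>
    simp only [map_smul, LinearMap.smul_apply]
    linear_combination (norm := module) c • h
  | hg i x hx =>
    induction v using ind with
    | h0 => simp
    | ha u u' h h' =>
      simp only [map_add, LinearMap.add_apply]
      linear_combination (norm := module) h + h'
    | hs c u h =>
      simp only [map_smul, LinearMap.smul_apply]
      linear_combination (norm := module) c • h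
    | hg j y hy =>
      induction w using ind with
      | h0 => simp
      | ha u u' h h' =>
        simp only [map_add, LinearMap.add_apply]
        linear_combination (norm := module) h + h'
      | hs c u h =>
        simp only [map_smul, LinearMap.smul_apply]
        linear_combination (norm := module) c • h
      | hg k z hz =>
        obtain ⟨a1, a2⟩ := br_br (K := K) hx hy hz (n := i + j + k + 2) (by omega)
        obtain ⟨b1, b2⟩ := br_br (K := K) hy hz hx (n := i + j + k + 2) (by omega)
        obtain ⟨c1, c2⟩ := br_br (K := K) hz hx hy (n := i + j + k + 2) (by omega)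
        have e : ⁅⁅x, y⁆, y * z * y⁻¹⁆ * ⁅⁅y, z⁆, z * x * z⁻¹⁆ * ⁅⁅z, x⁆, x * y * x⁻¹⁆ = 1 := by
          simp only [commutatorElement_def]; group
        rw [a2, b2, c2, ← pi_mul a1 b1, ← pi_mul (mul_mem a1 b1) c1, e, pi_one]

instance : LieRing (LL K H) where
  bracket u v := br K H u v
  add_lie u v w := by simp only [map_add, LinearMap.add_apply]
  lie_add u v w := map_add _ _ _
  lie_self := br_self
  leibniz_lie u v w := by
    have h1 := br_jac u v w
    have h2 := br_anti u (br K H v w)
    have h3 := br_anti v (br K H u w)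
    have h4 := congrArg (fun t => br K H t v) (br_anti u w)
    simp only [map_add, LinearMap.add_apply, map_zero, LinearMap.zero_apply] at h4
    show br K H u (br K H v w) = br K H (br K H u v) w + br K H v (br K H u w)
    linear_combination (norm := module) h2 - h1 - h3 + h4

instance : LieAlgebra K (LL K H) where
  lie_smul c u v := map_smul (br K H u) c v

theorem ok_rho (hH : H.Normal) (a : A) : Ok H fun i x => pi K H i (a * x * a⁻¹) where
  mul i x hx y hy := by
    rw [← pi_mul ((lcs_normal H hH i).conj_mem x hx a) ((lcs_normal H hH i).conj_mem y hy a)]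
    congr 1
    group
  zero i x hx := pi_zero ((lcs_normal H hH _).conj_mem x hx a)

variable (K) in
/-- The action by conjugation. -/
def rho (hH : H.Normal) : A →* Module.End K (LL K H) where
  toFun a := lift K _ (ok_rho hH a)
  map_one' := hom_ext fun i x hx => by rw [lift_pi _ hx]; simp
  map_mul' a b := hom_ext fun i x hx => by
    rw [Module.End.mul_apply, lift_pi _ hx, lift_pi _ hx,
      lift_pi _ ((lcs_normal H hH i).conj_mem x hx b)]
    congr 1
    group

theorem rho_pi (hH : H.Normal) (a : A) {i : ℕ} {x : A} (hx : x ∈ H.lowerCentralSeries i) :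
    rho K hH a (pi K H i x) = pi K H i (a * x * a⁻¹) := lift_pi (ok_rho hH a) hx

theorem rho_br (hH : H.Normal) (a : A) (u v : LL K H) :
    rho K hH a (br K H u v) = br K H (rho K hH a u) (rho K hH a v) := by
  induction u using ind with
  | h0 => simp
  | ha u u' h h' => simp only [map_add, LinearMap.add_apply, h, h']
  | hs c u h => simp only [map_smul, LinearMap.smul_apply, h]
  | hg i x hx =>
    induction v using ind with
    | h0 => simp
    | ha u u' h h' => simp only [map_add, h, h']
    | hs c u h => simp only [map_smul, h]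
    | hg j y hy =>
      rw [br_pi hx hy, rho_pi hH a hx, rho_pi hH a hy, rho_pi hH a (lcs_comm H hx hy),
        br_pi ((lcs_normal H hH i).conj_mem x hx a) ((lcs_normal H hH j).conj_mem y hy a),
        conjugate_commutatorElement]

end GLP

open GLP in
theorem gl_ok : StGL := fun K _ _ _ H hH => ⟨{
  L := LL K H
  π := pi K H
  ρ := rho K hH
  π_mul := fun _ _ hx _ hy => pi_mul hx hy
  π_zero := fun _ _ hx => pi_zero hx
  π_lie := fun _ _ _ hx _ hy => br_pi hx hy
  ρ_π := fun a _ _ hx => rho_pi hH a hx
  ρ_lie := rho_br hH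
  ρ_H := fun h hh => hom_ext fun i x hx => by
    rw [rho_pi hH h hx, pi_conj hh hx, Module.End.one_apply]
  sep := fun i χ h1 h2 x hx h0 => by
    have hf : Ok H fun j y => if j = i then χ y else 0 :=
      ⟨fun j y hy z hz => by
        split_ifs with h
        · subst h; exact h1 y hy z hz
        · simp, fun j y hy => by
        split_ifs with h
        · subst h; exact h2 y hy
        · rfl⟩
    have := lift_pi (K := K) hf hx
    rw [h0, map_zero, if_pos rfl] at this
    exact this.symm }⟩

end Pool.Agent.P.MP_169bcc_al.NC
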