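import Pool.Agent.P.MP_169bcc_al.NC.Spec2

/-!
The graded Lie algebra of a filtration.
-/

noncomputable section

namespace Pool.Agent.P.MP_169bcc_al.NC

namespace GrFP

variable {K L ι : Type} [Field K] [LieRing L] [LieAlgebra K L] (A B : ι → Submodule K L)

/-- The relations. -/
def Rel : Submodule K (ι × L →₀ K) := Submodule.span K
  {v | (∃ i, ∃ x ∈ A i, ∃ y ∈ A i, ∃ c : K,
      v = Finsupp.single (i, c • x + y) 1 - (c • Finsupp.single (i, x) 1 + Finsupp.single (i, y) 1)) ∨
    ∃ i x, (x ∈ B i ∨ x ∉ A i) ∧ v = Finsupp.single (i, x) 1}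

/-- The underlying space. -/
def LL : Type := (ι × L →₀ K) ⧸ Rel A B

instance : AddCommGroup (LL A B) := inferInstanceAs (AddCommGroup ((ι × L →₀ K) ⧸ Rel A B))

instance : Module K (LL A B) := inferInstanceAs (Module K ((ι × L →₀ K) ⧸ Rel A B))

/-- The quotient map. -/
def mk : (ι × L →₀ K) →ₗ[K] LL A B := (Rel A B).mkQ

/-- The class of an element. -/
def pi (i : ι) (x : L) : LL A B := mk A B (Finsupp.single (i, x) 1)

variable {A B}

theorem mk_zero {v : ι × L →₀ K} (h : v ∈ Rel A B) : mk A B v = 0 :=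
  (Submodule.Quotient.mk_eq_zero _).2 h

theorem pi_lin {i : ι} {x y : L} (c : K) (hx : x ∈ A i) (hy : y ∈ A i) :
    pi A B i (c • x + y) = c • pi A B i x + pi A B i y := by
  have := mk_zero (A := A) (B := B) (Submodule.subset_span (Or.inl ⟨i, x, hx, y, hy, c, rfl⟩))
  rwa [map_sub, map_add, map_smul, sub_eq_zero] at this

theorem pi_add {i : ι} {x y : L} (hx : x ∈ A i) (hy : y ∈ A i) :
    pi A B i (x + y) = pi A B i x + pi A B i y := by
  simpa using pi_lin (B := B) 1 hx hy

theorem pi_zero {i : ι} {x : L} (hx : x ∈ B i) : pi A B i x = 0 :=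
  mk_zero (Submodule.subset_span (Or.inr ⟨i, x, Or.inl hx, rfl⟩))

theorem pi_out {i : ι} {x : L} (hx : x ∉ A i) : pi A B i x = 0 :=
  mk_zero (Submodule.subset_span (Or.inr ⟨i, x, Or.inr hx, rfl⟩))

theorem ind {P : LL A B → Prop} (h0 : P 0) (ha : ∀ u v, P u → P v → P (u + v))
    (hs : ∀ (c : K) u, P u → P (c • u)) (hg : ∀ i x, x ∈ A i → P (pi A B i x)) (u : LL A B) :
    P u := by
  obtain ⟨f, rfl⟩ : ∃ f, mk A B f = u := (Rel A B).mkQ_surjective u
  induction f using Finsupp.induction_linear with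
  | zero => rwa [map_zero]
  | add f g hf hg => rw [map_add]; exact ha _ _ hf hg
  | single p c =>
    rw [← mul_one c, ← smul_eq_mul, ← Finsupp.smul_single, map_smul]
    refine hs c _ ?_
    by_cases h : p.2 ∈ A p.1
    · exact hg _ _ h
    · have := pi_out (B := B) h
      rw [pi] at this
      rwa [this]

section Lift

variable {W : Type} [AddCommGroup W] [Module K W]

theorem hom_ext {f g : LL A B →ₗ[K] W}
    (h : ∀ i x, x ∈ A i → f (pi A B i x) = g (pi A B i x)) : f = g := by
  refine LinearMap.ext fun u => ?_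
  induction u using ind with
  | h0 => simp
  | ha u v hu hv => rw [map_add, map_add, hu, hv]
  | hs c u hu => rw [map_smul, map_smul, hu]
  | hg i x hx => exact h i x hx

variable (A B) in
/-- Families that are linear on each component. -/
structure Ok (f : ι → L → W) : Prop where
  lin : ∀ i (c : K), ∀ x ∈ A i, ∀ y ∈ A i, f i (c • x + y) = c • f i x + f i y
  zero : ∀ i, ∀ x ∈ B i, f i x = 0

open Classical in
/-- The universal property. -/
def lift (f : ι → L → W) (hf : Ok A B f) : LL A B →ₗ[K] W :=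
  (Rel A B).liftQ (Finsupp.linearCombination K fun p : ι × L =>
    if p.2 ∈ A p.1 then f p.1 p.2 else 0) (by
      refine Submodule.span_le.2 ?_
      rintro v (⟨i, x, hx, y, hy, c, rfl⟩ | ⟨i, x, hx | hx, rfl⟩)
      · simp [hx, hy, add_mem ((A i).smul_mem c hx) hy, hf.lin i c x hx y hy]
      · simp [hf.zero i x hx]
      · simp [hx])

theorem lift_pi {f : ι → L → W} (hf : Ok A B f) {i : ι} {x : L} (hx : x ∈ A i) :
    lift f hf (pi A B i x) = f i x := by
  refine ((Rel A B).liftQ_apply _ _).trans ?_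
  simp [hx]

end Lift

variable [AddCommMonoid ι]

variable (A B) in
structure Hy : Prop where
  le : ∀ i, B i ≤ A i
  aa : ∀ i j, ∀ x ∈ A i, ∀ y ∈ A j, ⁅x, y⁆ ∈ A (i + j)
  ab : ∀ i j, ∀ x ∈ A i, ∀ y ∈ B j, ⁅x, y⁆ ∈ B (i + j)

theorem ok_ad (h : Hy A B) {i : ι} {x : L} (hx : x ∈ A i) :
    Ok A B fun j y => pi A B (i + j) ⁅x, y⁆ where
  lin j c y hy z hz := by
    rw [lie_add, lie_smul, pi_lin c (h.aa i j x hx y hy) (h.aa i j x hx z hz)]
  zero j y hy := pi_zero (h.ab i j x hx y hy)

open Classical in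
/-- The bracket with a generator. -/
def ad (h : Hy A B) (i : ι) (x : L) : LL A B →ₗ[K] LL A B :=
  if hx : x ∈ A i then lift _ (ok_ad h hx) else 0

theorem ad_pi (h : Hy A B) {i j : ι} {x y : L} (hx : x ∈ A i) (hy : y ∈ A j) :
    ad h i x (pi A B j y) = pi A B (i + j) ⁅x, y⁆ := by
  rw [ad, dif_pos hx, lift_pi _ hy]

theorem ok_br (h : Hy A B) : Ok A B (ad h) where
  lin i c x hx z hz := hom_ext fun j y hy => by
    rw [LinearMap.add_apply, LinearMap.smul_apply, ad_pi h (add_mem ((A i).smul_mem c hx) hz) hy,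
      ad_pi h hx hy, ad_pi h hz hy, add_lie, smul_lie,
      pi_lin c (h.aa i j x hx y hy) (h.aa i j z hz y hy)]
  zero i x hx := hom_ext fun j y hy => by
    rw [ad_pi h (h.le i hx) hy, LinearMap.zero_apply, ← lie_skew, add_comm]
    exact pi_zero (neg_mem (h.ab j i y hy x hx))

/-- The bracket. -/
def br (h : Hy A B) : LL A B →ₗ[K] LL A B →ₗ[K] LL A B := lift _ (ok_br h)

theorem br_pi (h : Hy A B) {i j : ι} {x y : L} (hx : x ∈ A i) (hy : y ∈ A j) :
    br h (pi A B i x) (pi A B j y) = pi A B (i + j) ⁅x, y⁆ := by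
  rw [br, lift_pi _ hx, ad_pi h hx hy]

theorem br_anti (h : Hy A B) (u v : LL A B) : br h u v + br h v u = 0 := by
  have : br h + (br h).flip = 0 := hom_ext fun i x hx => hom_ext fun j y hy => by
    have h2 := h.aa j i y hy x hx
    rw [add_comm j i] at h2
    rw [LinearMap.add_apply, LinearMap.add_apply, LinearMap.flip_apply, br_pi h hx hy,
      br_pi h hy hx, add_comm j i, ← pi_add (h.aa i j x hx y hy) h2, ← lie_skew x y, neg_add_cancel,
      pi_zero (zero_mem _)]
    rfl
  exact LinearMap.congr_fun (LinearMap.congr_fun this u) v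

theorem br_self (h : Hy A B) (u : LL A B) : br h u u = 0 := by
  induction u using ind with
  | h0 => simp
  | ha u v hu hv =>
    simp only [map_add, LinearMap.add_apply, hu, hv, zero_add, add_zero]
    exact br_anti h v u
  | hs c u hu => simp [hu]
  | hg i x hx => rw [br_pi h hx hx, lie_self, pi_zero (zero_mem _)]

theorem br_jac (h : Hy A B) (u v w : LL A B) :
    br h u (br h v w) = br h (br h u v) w + br h v (br h u w) := by
  induction u using ind with
  | h0 => simp
  | ha u u' h h' => simp only [map_add, LinearMap.add_apply, h, h']; abel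
  | hs c u h => simp only [map_smul, LinearMap.smul_apply, h, smul_add]
  | hg i x hx =>
    induction v using ind with
    | h0 => simp
    | ha u u' h h' => simp only [map_add, LinearMap.add_apply, h, h']; abel
    | hs c u h => simp only [map_smul, LinearMap.smul_apply, h, smul_add]
    | hg j y hy =>
      induction w using ind with
      | h0 => simp
      | ha u u' h h' => simp only [map_add, h, h']; abel
      | hs c u h => simp only [map_smul, h, smul_add]
      | hg k z hz =>
        have a1 := h.aa _ _ _ (h.aa i j x hx y hy) z hz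
        have a2 := h.aa _ _ y hy _ (h.aa i k x hx z hz)
        rw [br_pi h hy hz, br_pi h hx hy, br_pi h hx hz, br_pi h hx (h.aa j k y hy z hz),
          br_pi h (h.aa i j x hx y hy) hz, br_pi h hy (h.aa i k x hx z hz), leibniz_lie]
        rw [add_left_comm] at a2
        rw [add_assoc] at a1
        rw [add_left_comm j, add_assoc, pi_add a1 a2]

/-- The Lie ring. -/
@[reducible] def ring (h : Hy A B) : LieRing (LL A B) where
  bracket u v := br h u v
  add_lie u v w := by simp only [map_add, LinearMap.add_apply]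
  lie_add u v w := map_add _ _ _
  lie_self := br_self h
  leibniz_lie := br_jac h

variable {Q : Type} [Group Q] {ρ : Q →* Module.End K L}

omit [AddCommMonoid ι] in
theorem ok_rho (hA : ∀ q i, ∀ x ∈ A i, ρ q x ∈ A i) (hB : ∀ q i, ∀ x ∈ B i, ρ q x ∈ B i) (q : Q) :
    Ok A B fun i x => pi A B i (ρ q x) where
  lin i c x hx y hy := by rw [map_add, map_smul, pi_lin c (hA q i x hx) (hA q i y hy)]
  zero i x hx := pi_zero (hB q i x hx)

/-- The induced action. -/
def rho (hA : ∀ q i, ∀ x ∈ A i, ρ q x ∈ A i) (hB : ∀ q i, ∀ x ∈ B i, ρ q x ∈ B i) :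
    Q →* Module.End K (LL A B) where
  toFun q := lift _ (ok_rho hA hB q)
  map_one' := hom_ext fun i x hx => by rw [lift_pi _ hx]; simp
  map_mul' a b := hom_ext fun i x hx => by
    rw [Module.End.mul_apply, lift_pi _ hx, lift_pi _ hx, lift_pi _ (hA b i x hx), map_mul,
      Module.End.mul_apply]

omit [AddCommMonoid ι] in
theorem rho_pi (hA : ∀ q i, ∀ x ∈ A i, ρ q x ∈ A i) (hB : ∀ q i, ∀ x ∈ B i, ρ q x ∈ B i) (q : Q)
    {i : ι} {x : L} (hx : x ∈ A i) : rho hA hB q (pi A B i x) = pi A B i (ρ q x) :=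
  lift_pi (ok_rho hA hB q) hx

theorem rho_br (h : Hy A B) (hρ : ∀ q x y, ρ q ⁅x, y⁆ = ⁅ρ q x, ρ q y⁆)
    (hA : ∀ q i, ∀ x ∈ A i, ρ q x ∈ A i) (hB : ∀ q i, ∀ x ∈ B i, ρ q x ∈ B i) (q : Q)
    (u v : LL A B) : rho hA hB q (br h u v) = br h (rho hA hB q u) (rho hA hB q v) := by
  induction u using ind with
  | h0 => simp
  | ha u u' h h' => simp only [map_add, LinearMap.add_apply, h, h']
  | hs c u h => simp only [map_smul, LinearMap.smul_apply, h]
  | hg i x hx =>
    induction v using ind with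
    | h0 => simp
    | ha u u' h h' => simp only [map_add, h, h']
    | hs c u h => simp only [map_smul, h]
    | hg j y hy =>
      rw [br_pi h hx hy, rho_pi hA hB q hx, rho_pi hA hB q hy, rho_pi hA hB q (h.aa i j x hx y hy),
        br_pi h (hA q i x hx) (hA q j y hy), hρ]

omit [AddCommMonoid ι] in
theorem sep {i : ι} {x : L} (hx : x ∈ A i) (h0 : pi A B i x = 0) : x ∈ B i := by
  classical
  have hf : Ok A B fun j y => if j = i then (B i).mkQ y else 0 :=
    ⟨fun j c y _ z _ => by split_ifs <;> simp, fun j y hy => by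
      split_ifs with h
      · exact (Submodule.Quotient.mk_eq_zero _).2 (h ▸ hy)
      · rfl⟩
  have := lift_pi hf hx
  rw [h0, map_zero, if_pos rfl] at this
  exact (Submodule.Quotient.mk_eq_zero _).1 this.symm

end GrFP

open GrFP in
theorem grf_ok : StGrF := fun _ _ _ _ _ _ _ _ _ _ A B hρ h1 h2 h3 hA hB =>
  have h : Hy A B := ⟨h1, h2, h3⟩
  letI := ring h
  ⟨{ L' := LL A B
     alg := { lie_smul := fun c u v => map_smul (br h u) c v }
     π := pi A B
     σ := rho hA hB
     π_add := fun _ _ hx _ hy => pi_add hx hy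
     π_eq_zero := fun _ _ hx => ⟨sep hx, pi_zero⟩
     π_lie := fun _ _ _ hx _ hy => br_pi h hx hy
     σ_π := fun q _ _ hx => rho_pi hA hB q hx
     σ_lie := rho_br h hρ hA hB }⟩

end Pool.Agent.P.MP_169bcc_al.NC
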