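import Pool.Agent.P.MP_169bcc_al.NC.Spec

/-!
Nilpotent covering subgroups: eigenspaces of an automorphism of finite order.
-/

noncomputable section

namespace Pool.Agent.P.MP_169bcc_al.NC

namespace KaP

open Submodule Finset

variable {K L : Type} [Field K] [LieRing L] [LieAlgebra K L]

theorem kills_span {E F : Set L} {r : ℕ} (h : Kills E F r) :
    Kills (span K E : Set L) (span K F : Set L) r := by
  have key : ∀ x ∈ span K F, ∀ w : List L, (∀ y ∈ w, y ∈ span K E) → ∀ v : List L,
      (∀ y ∈ v, y ∈ E) → r ≤ v.length + w.length → adw v (adw w x) = 0 := by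
    intro x hx w
    induction w with
    | nil =>
      intro _ v hv hr
      rw [adw_nil]
      induction hx using span_induction with
      | mem x hx => exact h v hr hv x hx
      | zero => simp
      | add x y _ _ h1 h2 => rw [adw_add, h1, h2, add_zero]
      | smul c x _ h1 => rw [adw_smul, h1, smul_zero]
    | cons y w ih =>
      intro hw v hv hr
      have hy := hw y List.mem_cons_self
      have h0 := ih fun y hy => hw y (List.mem_cons_of_mem _ hy)
      rw [List.length_cons] at hr
      rw [adw_cons]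
      clear hw
      induction hy using span_induction with
      | mem y hy =>
        have := h0 (v ++ [y]) (by simpa [or_imp, forall_and, hy] using hv) (by simp; omega)
        rwa [adw_append] at this
      | zero => simp
      | add x y _ _ h1 h2 => rw [add_lie, adw_add, h1, h2, add_zero]
      | smul c x _ h1 => rw [smul_lie, adw_smul, h1, smul_zero]
  exact fun w hr hw x hx => key x hx w hw [] (by simp) (by simpa using hr)

theorem eig (φ : Module.End K L) {m : ℕ} {η : K} (h0 : η ≠ 0) (hη : η ^ m = 1) {x : L}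
    (hx : (φ ^ m) x = x) : φ (∑ t ∈ range m, η⁻¹ ^ t • (φ ^ t) x) =
      η • ∑ t ∈ range m, η⁻¹ ^ t • (φ ^ t) x := by
  have h1 := sum_range_succ (fun t => η⁻¹ ^ t • (φ ^ t) x) m
  rw [sum_range_succ'] at h1
  simp only [hx, inv_pow η m, hη, inv_one, pow_zero, Module.End.one_apply, add_left_inj] at h1
  conv_rhs => rw [← h1]
  rw [map_sum, smul_sum]
  refine sum_congr rfl fun t _ => ?_
  rw [map_smul, smul_smul, pow_succ' η⁻¹, mul_inv_cancel_left₀ h0, pow_succ',
    Module.End.mul_apply]

end KaP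

open Submodule Finset KaP in
theorem ka_ok : StKr → StKa := by
  intro kr m r hm
  obtain ⟨f, hf⟩ := kr m r hm
  refine ⟨f, fun K L _ _ _ ω φ X hω hφ hX h1 h2 h3 h4 => ?_⟩
  have : NeZero m := ⟨hm.ne'⟩
  have hm0 : (m : K) ≠ 0 := hω.neZero'.ne
  have h0 : ∀ j : ℕ, ω ^ j ≠ 0 := fun j => pow_ne_zero j (hω.ne_zero hm.ne')
  have v1 : ∀ x ∈ span K X, ∀ y ∈ span K X, ⁅x, y⁆ ∈ span K X := fun x hx y hy => by
    induction hx, hy using span_induction₂ with
    | mem_mem x y hx hy => exact subset_span (hX x hx y hy)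
    | zero_left => simp
    | zero_right => simp
    | add_left _ _ _ _ _ _ a b => rw [add_lie]; exact add_mem a b
    | add_right _ _ _ _ _ _ a b => rw [lie_add]; exact add_mem a b
    | smul_left _ _ _ _ _ a => rw [smul_lie]; exact smul_mem _ _ a
    | smul_right _ _ _ _ _ a => rw [lie_smul]; exact smul_mem _ _ a
  have v2 : ∀ t : ℕ, ∀ x ∈ span K X, (φ ^ t) x ∈ span K X := fun t x hx =>
    Module.End.pow_apply_mem_of_forall_mem (p := span K X) t
      ((span_le (p := (span K X).comap φ)).2 fun z hz => subset_span (h1 z hz)) x hx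
  have v3 : ∀ x ∈ span K X, (φ ^ m) x = x := fun x hx =>
    LinearMap.eqOn_span (f := φ ^ m) (g := LinearMap.id) h2 hx
  have g0 : span K X ⊓ φ.eigenspace (ω ^ (0 : ZMod m).val) ≤ span K {x ∈ X | φ x = x} := by
    rintro x ⟨hx, hx'⟩
    have a1 : φ x = x := by simpa using Module.End.mem_eigenspace_iff.1 hx'
    have a2 : (∑ t ∈ range m, φ ^ t) x ∈ span K {x ∈ X | φ x = x} :=
      (span_le (p := (span K {x ∈ X | φ x = x}).comap (∑ t ∈ range m, φ ^ t))).2 (fun z hz =>
        subset_span (by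
          rw [LinearMap.sum_apply]
          exact ⟨h3 z hz, by simpa using eig φ one_ne_zero (one_pow m) (h2 z hz)⟩)) hx
    rw [LinearMap.sum_apply, sum_congr rfl fun t _ => (show (φ ^ t) x = x by
      rw [Module.End.pow_apply, Function.iterate_fixed a1]), sum_const, card_range,
      ← Nat.cast_smul_eq_nsmul K] at a2
    exact (smul_mem_iff _ hm0).1 a2
  have g1 : X ⊆ (⨆ j : ZMod m, span K X ⊓ φ.eigenspace (ω ^ j.val) : Submodule K L) := by
    intro x hx
    refine (smul_mem_iff _ hm0).1 ?_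
    have a1 : (m : K) • x = ∑ j ∈ range m, ∑ t ∈ range m, (ω ^ j)⁻¹ ^ t • (φ ^ t) x := by
      rw [sum_comm, sum_eq_single_of_mem 0 (mem_range.2 hm)]
      · simp [Nat.cast_smul_eq_nsmul]
      · intro t ht ht0
        have a2 : ω⁻¹ ^ t ≠ 1 := hω.inv.pow_ne_one_of_pos_of_lt ht0 (mem_range.1 ht)
        rw [← sum_smul, sum_congr rfl fun j _ => (show (ω ^ j)⁻¹ ^ t = (ω⁻¹ ^ t) ^ j by
          rw [← inv_pow, pow_right_comm]), geom_sum_eq a2, pow_right_comm, hω.inv.pow_eq_one]
        simp
    rw [a1]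
    refine sum_mem fun j hj => mem_iSup_of_mem (j : ZMod m) ⟨sum_mem fun t _ =>
      smul_mem _ _ (v2 t x (subset_span hx)), Module.End.mem_eigenspace_iff.2 ?_⟩
    rw [ZMod.val_cast_of_lt (mem_range.1 hj)]
    exact eig φ (h0 j) (by rw [pow_right_comm, hω.pow_eq_one, one_pow]) (h2 x hx)
  have k1 := kills_span (K := K) h4
  refine k1.mono ((dd_iter_mono f g1).trans ((hf K L
    (fun j => span K X ⊓ φ.eigenspace (ω ^ j.val)) ?_ fun i =>
    k1.mono g0 (fun x hx => hx.1) le_rfl).trans g0)) subset_span le_rfl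
  rintro i j x ⟨hx, hx'⟩ y ⟨hy, hy'⟩
  refine ⟨v1 x hx y hy, Module.End.mem_eigenspace_iff.2 ?_⟩
  rw [hφ, Module.End.mem_eigenspace_iff.1 hx', Module.End.mem_eigenspace_iff.1 hy', smul_lie,
    lie_smul, smul_smul, ← pow_add, ZMod.val_add, ← pow_eq_pow_mod _ hω.pow_eq_one]

end Pool.Agent.P.MP_169bcc_al.NC
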