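import Pool.Agent.P.MP_169bcc_al.NC.Spec

/-!
Package Kr: the theorem of Kreknin with a nilpotent action of the zero component.
-/

noncomputable section

namespace Pool.Agent.P.MP_169bcc_al.NC

namespace KrP

open Submodule

variable {m r : ℕ} {K L : Type} [Field K] [LieRing L] [LieAlgebra K L]
  {G G' : ZMod m → Submodule K L}

theorem skew {T : Submodule K L} {x y : L} (h : ⁅x, y⁆ ∈ T) : ⁅y, x⁆ ∈ T :=
  lie_skew y x ▸ T.neg_mem h

theorem lie_right {t : Set L} {T : Submodule K L} {x y : L} (h : ∀ y ∈ t, ⁅x, y⁆ ∈ T)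
    (hy : y ∈ span K t) : ⁅x, y⁆ ∈ T :=
  (span_le (p := T.comap (LieAlgebra.ad K L x))).2 h hy

/-- Graded families. -/
def Gr (G : ZMod m → Submodule K L) : Prop := ∀ i j, ∀ x ∈ G i, ∀ y ∈ G j, ⁅x, y⁆ ∈ G (i + j)

/-- The derived family. -/
def D (G : ZMod m → Submodule K L) (b : ZMod m) : Submodule K L :=
  span K {z | ∃ i j, ∃ x ∈ G i, ∃ y ∈ G j, i + j = b ∧ z = ⁅x, y⁆}

theorem D_le (h : Gr G) (b : ZMod m) : D G b ≤ G b :=
  span_le.2 fun _ ⟨i, j, x, hx, y, hy, e, e'⟩ => e ▸ e' ▸ h i j x hx y hy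

theorem D_gr (h : Gr G) : Gr (D G) := fun i j x hx y hy =>
  subset_span ⟨i, j, x, D_le h i hx, y, D_le h j hy, rfl, rfl⟩

theorem it (s : ℕ) (h : Gr G) : Gr (D^[s] G) ∧ ∀ b, D^[s] G b ≤ G b := by
  induction s with
  | zero => exact ⟨h, fun _ => le_rfl⟩
  | succ s ih =>
    rw [Function.iterate_succ_apply']
    exact ⟨D_gr ih.1, fun b => (D_le ih.1 b).trans (ih.2 b)⟩

theorem dd_sub (s : ℕ) : ∀ G : ZMod m → Submodule K L,
    dd^[s] ((⨆ i, G i : Submodule K L) : Set L) ⊆ (⨆ i, D^[s] G i : Submodule K L) := by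
  induction s with
  | zero => exact fun G => subset_rfl
  | succ s ih =>
    refine fun G => (dd_iter_mono s ?_).trans (ih (D G))
    rintro _ ⟨x, hx, y, hy, rfl⟩
    rw [iSup_eq_span] at hx hy
    refine lie_right (fun y hy => skew (lie_right (fun x hx => skew ?_) hx)) hy
    obtain ⟨i, hi⟩ := Set.mem_iUnion.1 hx
    obtain ⟨j, hj⟩ := Set.mem_iUnion.1 hy
    exact mem_iSup_of_mem (i + j) (subset_span ⟨i, j, x, hi, y, hj, rfl, rfl⟩)

/-- Brackets of elements of degree larger than `j`. -/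
inductive Gen (j : ℕ) (G : ZMod m → Submodule K L) : ZMod m → L → Prop
  | of {c x} : j < c.val → x ∈ G c → Gen j G c x
  | br {a b x y} : Gen j G a x → Gen j G b y → Gen j G (a + b) ⁅x, y⁆

/-- The components of the subalgebra generated by the degrees larger than `j`. -/
def H (j : ℕ) (G : ZMod m → Submodule K L) (b : ZMod m) : Submodule K L :=
  span K {x | Gen j G b x}

variable {j : ℕ}

theorem Gen.mem (h : Gr G) {b : ZMod m} {x : L} (hx : Gen j G b x) : x ∈ G b := by
  induction hx with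
  | of _ h => exact h
  | br _ _ h1 h2 => exact h _ _ _ h1 _ h2

theorem H_gr : Gr (H j G) := fun _ _ _ hx _ hy =>
  lie_right (fun _ hy => skew (lie_right (fun _ hx => skew (subset_span (Gen.br hx hy))) hx)) hy

theorem H_le {j' : ℕ} (h : ∀ c x, j < c.val → x ∈ G c → x ∈ H j' G' c) (b : ZMod m) :
    H j G b ≤ H j' G' b := span_le.2 fun x (hx : Gen j G b x) => by
  induction hx with
  | of h1 h2 => exact h _ _ h1 h2
  | br h1 h2 i1 i2 => exact H_gr _ _ _ i1 _ i2

theorem H_ad (h : Gr G) {v x : L} {b : ZMod m} (hv : v ∈ G 0) (hx : x ∈ H j G b) :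
    ⁅v, x⁆ ∈ H j G b := by
  refine lie_right (fun y (hy : Gen j G b y) => ?_) hx
  clear hx
  induction hy with
  | of h1 h2 => exact subset_span (Gen.of h1 (by simpa using h _ _ _ hv _ h2))
  | br h1 h2 i1 i2 =>
    rw [leibniz_lie]
    exact add_mem (H_gr _ _ _ i1 _ (subset_span h2)) (H_gr _ _ _ (subset_span h1) _ i2)

variable [NeZero m]

theorem stepA {J : ZMod m} (hJ : J.val = j + 1) (h : Gr G) (hG : ∀ b, G' b ≤ G b)
    (hC : ∀ b ≠ 0, G' b ≤ H j G b) {T : Submodule K L} (h1 : H (j + 1) G J ≤ T)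
    (h2 : ∀ v ∈ G 0, ∀ x ∈ G J, ⁅v, x⁆ ∈ T) : D G' J ≤ T := by
  have key : ∀ b y, Gen j G b y → ∀ a, ∀ x ∈ G a, a + b = J → ⁅x, y⁆ ∈ T := by
    intro b y hy
    induction hy with
    | @of c y h3 h4 =>
      intro a x hx e
      by_cases hc : c = J
      · obtain rfl : a = 0 := by simpa [hc] using e
        exact h2 x hx y (hc ▸ h4)
      · have h5 : c.val ≠ j + 1 := fun e => hc (ZMod.val_injective m (e.trans hJ.symm))
        have h6 := ZMod.val_lt c
        have h7 : j + 1 < a.val := by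
          rcases lt_or_ge (a.val + c.val) m with h8 | h8
          · have := ZMod.val_add_of_lt h8
            rw [e] at this
            omega
          · have := ZMod.val_add_of_le h8
            rw [e] at this
            omega
        exact h1 (subset_span (e ▸ Gen.br (Gen.of h7 hx) (Gen.of (by omega) h4)))
    | @br b c y z h3 h4 i3 i4 =>
      intro a x hx e
      rw [leibniz_lie]
      exact add_mem (i4 _ _ (h _ _ _ hx _ (h3.mem h)) (by rw [← e]; ring))
        (skew (i3 _ _ (h _ _ _ hx _ (h4.mem h)) (by rw [← e]; ring)))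
  refine span_le.2 ?_
  rintro _ ⟨a, b, x, hx, y, hy, e, rfl⟩
  by_cases hb : b = 0
  · subst hb
    rw [add_zero] at e
    exact skew (h2 y (hG _ hy) x (e ▸ hG _ hx))
  · exact lie_right (fun y hy => key b y hy a x (hG _ hx) e) (hC b hb hy)

/-- The claim at level `j`. -/
def Cl (m r : ℕ) (K L : Type) [Field K] [LieRing L] [LieAlgebra K L] (j f : ℕ) : Prop :=
  ∀ G : ZMod m → Submodule K L, Gr G → (∀ i, Kills (G 0 : Set L) (G i : Set L) r) →
    ∀ b ≠ 0, D^[f] G b ≤ H j G b

theorem stepB {f : ℕ} (hC : Cl m r K L j f) (hj : j + 1 < m) :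
    Cl m r K L (j + 1) (f + r * (f + 1)) := by
  intro G h hK
  have hJ : ((j + 1 : ℕ) : ZMod m).val = j + 1 := ZMod.val_cast_of_lt hj
  generalize ((j + 1 : ℕ) : ZMod m) = J at hJ
  have hK' : ∀ s i, Kills (D^[s] G 0 : Set L) (D^[s] G i : Set L) r := fun s i =>
    (hK i).mono ((it s h).2 0) ((it s h).2 i) le_rfl
  have key : ∀ t (w : List L), (∀ y ∈ w, y ∈ G 0) → r ≤ w.length + t →
      ∀ x ∈ D^[t * (f + 1)] G J, adw w x ∈ H (j + 1) G J := by
    intro t
    induction t with
    | zero =>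
      intro w hw hr x hx
      rw [hK J w hr hw x ((it _ h).2 J hx)]
      exact zero_mem _
    | succ t ih =>
      intro w hw hr
      obtain ⟨h1, h2⟩ := it (t * (f + 1)) h
      rw [add_mul, one_mul, add_comm, Function.iterate_add_apply, Function.iterate_succ_apply']
      refine stepA (T := (H (j + 1) G J).comap
        (⟨⟨adw w, adw_add w⟩, adw_smul w⟩ : L →ₗ[K] L)) hJ h1 (it f h1).2 (hC _ h1 (hK' _))
        (fun x hx => ?_) fun v hv x hx => ?_
      · exact adw_mem (E := G 0) (F := H (j + 1) G J) (fun e he x hx => H_ad h he hx) w hw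
          (H_le (fun c x h3 h4 => subset_span (Gen.of h3 (h2 c h4))) J hx)
      · have := ih (w ++ [v]) (by
          simpa only [List.forall_mem_append, List.forall_mem_singleton] using ⟨hw, h2 0 hv⟩)
          (by simp only [List.length_append, List.length_singleton]; omega) x hx
        rwa [adw_append] at this
  intro b hb
  obtain ⟨h1, h2⟩ := it (r * (f + 1)) h
  rw [Function.iterate_add_apply]
  refine (hC _ h1 (hK' _) b hb).trans (H_le (fun c x h3 h4 => ?_) b)
  by_cases hc : c = J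
  · subst hc
    exact key r [] (by simp) (by simp) x h4
  · have h5 : c.val ≠ j + 1 := fun e => hc (ZMod.val_injective m (e.trans hJ.symm))
    exact subset_span (Gen.of (by omega) (h2 c h4))

theorem all (m r : ℕ) [NeZero m] (j : ℕ) (hj : j < m) : ∃ f, ∀ (K L : Type) [Field K] [LieRing L]
    [LieAlgebra K L], Cl m r K L j f := by
  induction j with
  | zero =>
    exact ⟨0, fun K L _ _ _ G _ _ b hb x hx => subset_span (Gen.of (ZMod.val_pos.2 hb) hx)⟩
  | succ j ih =>
    obtain ⟨f, hf⟩ := ih (by omega)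
    exact ⟨_, fun K L _ _ _ => stepB (hf K L) hj⟩

end KrP

open KrP in
theorem kr_ok : StKr := by
  intro m r hm
  have : NeZero m := ⟨hm.ne'⟩
  obtain ⟨f, hf⟩ := all m r (m - 1) (by omega)
  refine ⟨f, fun K L _ _ _ G h hK => (dd_sub f G).trans (iSup_le (a := G 0) fun b => ?_)⟩
  by_cases hb : b = 0
  · exact hb ▸ (it f h).2 b
  · refine (hf K L G h hK b hb).trans (Submodule.span_le.2 fun x (hx : Gen _ _ _ _) => ?_)
    exfalso
    clear hb
    induction hx with
    | @of c _ h1 _ =>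
      have := ZMod.val_lt c
      omega
    | br _ _ h1 _ => exact h1

end Pool.Agent.P.MP_169bcc_al.NC
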