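import Pool.Agent.P.MP_169bcc_al.NC.S0

/-!
If a derived set of `E` acts nilpotently, so does `E`.
-/

noncomputable section

namespace Pool.Agent.P.MP_169bcc_al.NC

namespace SP

variable {L : Type} [LieRing L]

/-- The ascending series of annihilators of `E`. -/
def Z (E : Set L) : ℕ → AddSubgroup L
  | 0 => ⊥
  | j + 1 =>
    { carrier := {x | ∀ e ∈ E, ⁅e, x⁆ ∈ Z E j}
      zero_mem' := fun e _ => by rw [lie_zero]; exact zero_mem _
      add_mem' := fun hx hy e he => by rw [lie_add]; exact add_mem (hx e he) (hy e he)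
      neg_mem' := fun hx e he => by rw [lie_neg]; exact neg_mem (hx e he) }

theorem mem_Z {E : Set L} {j : ℕ} {x : L} : x ∈ Z E (j + 1) ↔ ∀ e ∈ E, ⁅e, x⁆ ∈ Z E j := Iff.rfl

theorem mem_Z_of {E : Set L} : ∀ (j : ℕ) (x : L),
    (∀ w : List L, j ≤ w.length → (∀ y ∈ w, y ∈ E) → adw w x = 0) → x ∈ Z E j
  | 0, x, h => h [] le_rfl (by simp)
  | j + 1, x, h => fun e he => mem_Z_of j _ fun w hw hwE => by
    have := h (w ++ [e]) (by simpa using hw) (by
      intro y hy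
      rcases List.mem_append.1 hy with hy | hy
      · exact hwE y hy
      · rwa [List.mem_singleton.1 hy])
    rwa [adw_append] at this

theorem Z_lie {E E' : Set L} (h : ∀ e' ∈ E', ∀ e ∈ E, ⁅e', e⁆ ∈ E') :
    ∀ (j : ℕ), ∀ e ∈ E, ∀ x ∈ Z E' j, ⁅e, x⁆ ∈ Z E' j
  | 0, e, _, x, hx => by rw [AddSubgroup.mem_bot.1 hx, lie_zero]; exact zero_mem _
  | j + 1, e, he, x, hx => fun e' he' => by
    rw [leibniz_lie]
    exact add_mem (hx _ (h e' he' e he)) (Z_lie h j e he _ (hx e' he'))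

theorem Z_inv {K Q : Type} [Field K] [LieAlgebra K L] [Group Q] {ρ : Q →* Module.End K L}
    (hρ : ∀ q x y, ρ q ⁅x, y⁆ = ⁅ρ q x, ρ q y⁆) {E : Set L} (h : ∀ q, ∀ e ∈ E, ρ q e ∈ E) :
    ∀ (j : ℕ) (q : Q), ∀ x ∈ Z E j, ρ q x ∈ Z E j
  | 0, q, x, hx => by rw [AddSubgroup.mem_bot.1 hx, map_zero]; exact zero_mem _
  | j + 1, q, x, hx => fun e he => by
    have := Z_inv hρ h j q _ (hx _ (h q⁻¹ e he))
    have e1 := S0P.rep_inv ρ q⁻¹ e
    rw [inv_inv] at e1
    rwa [hρ, e1] at this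

end SP

open SP in
theorem s_ok : StS := by
  intro k K L Q ι _ _ _ _ _ ρ M F hρ hM hc hF s
  induction s with
  | zero => exact fun T E _ _ _ _ h => by simpa using h
  | succ s ih =>
    intro T E h1 h2 h3 h4 h5
    have hE : dd E ⊆ E := by
      rintro _ ⟨x, hx, y, hy, rfl⟩
      exact h3 x hx y hy
    have hi : ∀ q, ∀ e ∈ dd E, ρ q e ∈ dd E := by
      rintro q _ ⟨x, hx, y, hy, rfl⟩
      exact ⟨_, h2 q x hx, _, h2 q y hy, hρ q x y⟩
    have h6 := ih T (dd E) (hE.trans h1) hi (fun e he e' he' => ⟨e, hE he, e', hE he', rfl⟩)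
      (fun e he => h4 e (hE he)) h5
    have hZ := Z_lie (E := E) (E' := dd E) fun e' he' e he => ⟨e', hE he', e, he, rfl⟩
    have key : ∀ j, ∀ w : List L, Nat.card Q * (2 ^ Nat.card Q * k) * j ≤ w.length →
        (∀ y ∈ w, y ∈ E) → ∀ x ∈ Hom F, x ∈ Z (dd E) j → adw w x = 0 := by
      intro j
      induction j with
      | zero =>
        intro w _ _ x _ hx
        rw [AddSubgroup.mem_bot.1 hx, adw_zero]
      | succ j ihj =>
        intro w hw hwE x hx hxZ
        generalize hT : Nat.card Q * (2 ^ Nat.card Q * k) = T0 at hw ihj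
        rw [mul_add, mul_one] at hw
        have hv : ∀ y ∈ w.drop (T0 * j), y ∈ E := fun y hy => hwE y (List.mem_of_mem_drop hy)
        rw [← List.take_append_drop (T0 * j) w, adw_append]
        refine ihj _ (by rw [List.length_take]; omega)
          (fun y hy => hwE y (List.mem_of_mem_take hy)) _ (adw_mem h4 _ hv hx) ?_
        obtain ⟨d, hd⟩ := hx
        refine s0_ok k K L Q ι ρ M E (fun d => F d ⊓ Z (dd E) (j + 1)) (Z (dd E) j) hρ hM
          (fun e he => hc e (h1 he)) (fun y ⟨d, hy⟩ => hc y ⟨d, hy.1⟩) h2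
          (fun q d y hy => ⟨hF q d y hy.1, Z_inv hρ hi _ q y hy.2⟩) (Z_inv hρ hi j)
          (fun e he y ⟨d, hy⟩ => ?_) (hZ j) (fun e he e' he' y ⟨d, hy⟩ => ?_) _
          (by rw [List.length_drop]; omega) hv x ⟨d, hd, hxZ⟩
        · obtain ⟨d', hd'⟩ := h4 e he y ⟨d, hy.1⟩
          exact ⟨d', hd', hZ _ e he y hy.2⟩
        · exact hy.2 _ ⟨e, he, e', he', rfl⟩
    intro w hw hwE x hx
    refine key _ w (by rwa [pow_succ', mul_assoc] at hw) hwE x hx
      (mem_Z_of _ x fun v hv hvE => h6 v hv hvE x hx)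

end Pool.Agent.P.MP_169bcc_al.NC
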