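import Pool.Agent.P.MP_169bcc_al.NC.PStep

/-!
The Lie algebra theorem.
-/

noncomputable section

namespace Pool.Agent.P.MP_169bcc_al.NC

namespace MainP

variable {K L ι Q : Type} [Field K] [LieRing L] [LieAlgebra K L] [Group Q]

/-- The stabiliser of a vector. -/
def stab (ρ : Q →* Module.End K L) (x : L) : Subgroup Q where
  carrier := {a | ρ a x = x}
  one_mem' := by simp
  mul_mem' := fun {a b} (ha : ρ a x = x) (hb : ρ b x = x) => by
    change ρ (a * b) x = x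
    rw [map_mul, Module.End.mul_apply, hb, ha]
  inv_mem' := fun {a} (ha : ρ a x = x) => by
    change ρ a⁻¹ x = x
    rw [← ha, S0P.rep_inv, ha]

/-- The homogeneous elements fixed by `N`. -/
def FN (ρ : Q →* Module.End K L) (F : ι → AddSubgroup L) (N : Subgroup Q) (d : ι) :
    AddSubgroup L where
  carrier := {x | x ∈ F d ∧ ∀ g ∈ N, ρ g x = x}
  zero_mem' := ⟨zero_mem _, fun g _ => map_zero _⟩
  add_mem' := fun hx hy => ⟨add_mem hx.1 hy.1, fun g hg => by rw [map_add, hx.2 g hg, hy.2 g hg]⟩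
  neg_mem' := fun hx => ⟨neg_mem hx.1, fun g hg => by rw [map_neg, hx.2 g hg]⟩

variable {ρ : Q →* Module.End K L} {F : ι → AddSubgroup L}

theorem FN_inv (hF : ∀ q d, ∀ x ∈ F d, ρ q x ∈ F d) {N : Subgroup Q} (hN : N.Normal) :
    ∀ q d, ∀ x ∈ FN ρ F N d, ρ q x ∈ FN ρ F N d := fun q d x hx => ⟨hF q d x hx.1, fun g hg => by
  have := hx.2 _ (hN.conj_mem g hg q⁻¹)
  rw [inv_inv, mul_assoc, map_mul, Module.End.mul_apply] at this
  have h2 := congrArg (ρ q) this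
  have e1 := S0P.rep_inv ρ q⁻¹ (ρ (g * q) x)
  rw [inv_inv] at e1
  rwa [e1, map_mul, Module.End.mul_apply] at h2⟩

theorem FN_le (N : Subgroup Q) : Hom (FN ρ F N) ⊆ Hom F := fun _ ⟨d, hx⟩ => ⟨d, hx.1⟩

theorem dd_Z {E : Set L} (hE : ∀ x ∈ E, ∀ y ∈ E, ⁅x, y⁆ ∈ E) : ∀ s t : ℕ,
    (∀ x ∈ E, x ∈ SP.Z E (s + t)) → ∀ x ∈ dd^[s] E, x ∈ E ∧ x ∈ SP.Z E t
  | 0, t, h, x, hx => ⟨hx, by simpa using h x hx⟩
  | s + 1, t, h, x, hx => by
    rw [Function.iterate_succ_apply'] at hx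
    obtain ⟨y, hy, z, hz, rfl⟩ := hx
    have h' : ∀ x ∈ E, x ∈ SP.Z E (s + (t + 1)) := by
      rwa [show s + (t + 1) = s + 1 + t by omega]
    have h1 := dd_Z hE s (t + 1) h' y hy
    have h2 := dd_Z hE s (t + 1) h' z hz
    exact ⟨hE y h1.1 z h2.1, h2.2 y h1.1⟩

theorem kills_dd {E : Set L} (hE : ∀ x ∈ E, ∀ y ∈ E, ⁅x, y⁆ ∈ E) {c : ℕ} (h : Kills E E c)
    (X : Set L) : Kills (dd^[c] E) X 1 := by
  intro w hw hwE x _
  obtain ⟨y, w, rfl⟩ := List.exists_cons_of_length_pos hw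
  have := (dd_Z hE c 0 (fun z hz => SP.mem_Z_of _ z fun v hv hvE => h v hv hvE z hz) y
    (hwE y List.mem_cons_self)).2
  rw [adw_cons, AddSubgroup.mem_bot.1 this, zero_lie]

variable [AddCommMonoid ι] {k : ℕ} {M : Set L}

theorem hom_lie (D : Dat k ρ F M) : ∀ x ∈ Hom F, ∀ y ∈ Hom F, ⁅x, y⁆ ∈ Hom F :=
  fun x ⟨i, hx⟩ y ⟨j, hy⟩ => ⟨i + j, D.br i j x hx y hy⟩

theorem hom_inv (D : Dat k ρ F M) : ∀ q, ∀ x ∈ Hom F, ρ q x ∈ Hom F :=
  fun q x ⟨d, hx⟩ => ⟨d, D.inv q d x hx⟩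

theorem FN_dat (D : Dat k ρ F M) {N : Subgroup Q} (hN : N.Normal) : Dat k ρ (FN ρ F N) M where
  lie := D.lie
  br := fun i j x hx y hy => ⟨D.br i j x hx.1 y hy.1, fun g hg => by
    rw [D.lie, hx.2 g hg, hy.2 g hg]⟩
  inv := FN_inv D.inv hN
  cov := fun x hx => D.cov x (FN_le N hx)
  nilM := D.nilM
  nilF := D.nilF.imp fun _ h => h.mono (FN_le N) (FN_le N) le_rfl

end MainP

open MainP in
theorem main_ok (hKa : StKa) (hG : StGrF) (hU : StUni) (hS : StStep) (n k m : ℕ) :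
    ∃ c : ℕ, ∀ (p e : ℕ) (K Q : Type) [Field K] [CharP K p] [Group Q] [Finite Q] (ω : K),
      p.Prime → Nat.card Q = n → n = p ^ e * m → PCyc p Q → IsPrimitiveRoot ω m →
      Bd k c K (⊥ : Subgroup Q) := by
  have key : ∀ j : ℕ, ∃ c : ℕ, ∀ (p e : ℕ) (K Q : Type) [Field K] [CharP K p] [Group Q]
      [Finite Q] (ω : K), p.Prime → Nat.card Q = n → n = p ^ e * m → PCyc p Q →
      IsPrimitiveRoot ω m → ∀ N : Subgroup Q, N.Normal → n < Nat.card N + j → Bd k c K N := by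
    intro j
    induction j with
    | zero =>
      refine ⟨0, fun p e K Q _ _ _ _ ω _ hn _ _ _ N _ h => ?_⟩
      have := N.card_le_card_group
      omega
    | succ j ih =>
      obtain ⟨c, hc⟩ := ih
      obtain ⟨f, hf⟩ := hKa (max m 1) ((n * (2 ^ n * k)) ^ c * 1) (by omega)
      obtain ⟨s, hs⟩ := hU n
      refine ⟨max k (max ((n * (2 ^ n * k)) ^ f * ((n * (2 ^ n * k)) ^ c * 1))
        (2 * (c * (s + 1)) + (s + 1))),
        fun p e K Q _ _ _ _ ω hp hn he hP hω N hN h L ι _ _ _ ρ F M D hT => ?_⟩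
      by_cases hNT : N = ⊤
      · have h1 : Hom F ⊆ M := fun x hx => by
          obtain ⟨q, hq⟩ := D.cov x hx
          rwa [hT q (hNT ▸ Subgroup.mem_top q) x hx] at hq
        exact D.nilM.mono h1 h1 (le_max_left _ _)
      obtain ⟨N', hN', hlt, hcase⟩ := hS p e m Q hP (hn.trans he) N hN hNT
      have hB := hc p e K Q ω hp hn he hP hω N' hN' (by
        have : Nat.card N < Nat.card N' := (Subgroup.card_le_of_le hlt.le).lt_of_ne fun h =>
          hlt.ne (Subgroup.eq_of_le_of_card_ge hlt.le h.ge)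
        omega)
      rcases hcase with ⟨g, rfl, hg⟩ | hcase
      · have D' := FN_dat D hN'
        have h1 := hB L ι ρ _ M D' fun a ha x ⟨_, hx⟩ => hx.2 a ha
        have hS' := s_ok k K L Q ι ρ M F D.lie D.nilM D.cov D.inv
        rw [hn] at hS'
        have h2 := hS' c 1 _ (FN_le _) (hom_inv D') (hom_lie D')
          (fun x hx => hom_lie D x (FN_le _ hx)) (kills_dd (hom_lie D') h1 _)
        have hm1 : max m 1 = m := max_eq_left (Nat.pos_of_ne_zero fun h0 => by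
          rw [h0, mul_zero] at he
          exact Nat.card_pos.ne' (hn.trans he))
        rw [hm1] at hf
        have h3 := hf K L ω (ρ g) (Hom F) hω (D.lie g) (hom_lie D) (hom_inv D g)
          (fun x hx => by rw [← map_pow]; exact hT _ hg x hx)
          (fun x ⟨d, hx⟩ => ⟨d, AddSubgroup.sum_mem _ fun t _ => by
            rw [← map_pow]; exact D.inv _ d x hx⟩)
          (h2.mono (fun x ⟨⟨d, hx⟩, hg⟩ => ⟨d, hx, fun a ha =>
            (sup_le (fun b hb => hT b hb x ⟨d, hx⟩) (Subgroup.zpowers_le.2 hg) :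
              N ⊔ Subgroup.zpowers g ≤ stab ρ x) ha⟩) le_rfl le_rfl)
        exact (hS' f _ (Hom F) le_rfl (hom_inv D) (hom_lie D) (hom_lie D) h3).mono le_rfl le_rfl
          ((le_max_left _ _).trans (le_max_right _ _))
      · exact (pstep hG D hN' s.succ_pos hB fun l hl hlN x ⟨d, hx⟩ =>
          hs p K L Q ρ N N' (F d) hp hn hN hcase (fun g _ => D.inv g d)
            (fun g hg y hy => hT g hg y ⟨d, hy⟩) l (by omega) hlN x hx).mono le_rfl le_rfl
          ((le_max_right _ _).trans (le_max_right _ _))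
  obtain ⟨c, hc⟩ := key n
  exact ⟨c, fun p e K Q _ _ _ _ ω hp hn he hP hω => hc p e K Q ω hp hn he hP hω ⊥ inferInstance
    (by simp)⟩

end Pool.Agent.P.MP_169bcc_al.NC
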