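import Pool.Agent.P.MP_169bcc_al.NC.Spec2
import Pool.Agent.P.MP_169bcc_al.NC.LemS

/-!
The filtration on which a normal `p`-subgroup acts trivially.
-/

noncomputable section

namespace Pool.Agent.P.MP_169bcc_al.NC

namespace PS

variable {K L ι Q : Type} [Field K] [LieRing L] [LieAlgebra K L] [AddCommMonoid ι] [Group Q]

/-- Right multiplication. -/
def adR (y : L) : L →+ L := AddMonoidHom.mk' (fun x => ⁅x, y⁆) fun a b => add_lie a b y

/-- The operator `ρ g - 1`. -/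
def dl (ρ : Q →* Module.End K L) (g : Q) : L →+ L :=
  AddMonoidHom.mk' (fun y => ρ g y - y) fun a b => by rw [map_add]; abel

/-- The lower central series of the semidirect product. -/
def fil (ρ : Q →* Module.End K L) (F : ι → AddSubgroup L) (N : Subgroup Q) :
    ℕ → ι → AddSubgroup L
  | 0 => F
  | t + 1 => fun d => AddSubgroup.closure
    ({z | ∃ i j, ∃ x ∈ F i, ∃ y ∈ fil ρ F N t j, i + j = d ∧ z = ⁅x, y⁆} ∪
      {z | ∃ g ∈ N, ∃ y ∈ fil ρ F N t d, z = ρ g y - y})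

variable {ρ : Q →* Module.End K L} {F : ι → AddSubgroup L} {N : Subgroup Q} {k : ℕ} {M : Set L}

theorem fil_le {t : ℕ} {d : ι} {W : AddSubgroup L}
    (h1 : ∀ i j, ∀ x ∈ F i, ∀ y ∈ fil ρ F N t j, i + j = d → ⁅x, y⁆ ∈ W)
    (h2 : ∀ g ∈ N, ∀ y ∈ fil ρ F N t d, ρ g y - y ∈ W) : fil ρ F N (t + 1) d ≤ W := by
  refine (AddSubgroup.closure_le W).2 ?_
  rintro _ (⟨i, j, x, hx, y, hy, e, rfl⟩ | ⟨g, hg, y, hy, rfl⟩)
  exacts [h1 i j x hx y hy e, h2 g hg y hy]

theorem fil_br {t : ℕ} {i j d : ι} {x y : L} (hx : x ∈ F i) (hy : y ∈ fil ρ F N t j)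
    (e : i + j = d) : ⁅x, y⁆ ∈ fil ρ F N (t + 1) d :=
  AddSubgroup.subset_closure (Or.inl ⟨i, j, x, hx, y, hy, e, rfl⟩)

theorem fil_dl {t : ℕ} {d : ι} {g : Q} {y : L} (hg : g ∈ N) (hy : y ∈ fil ρ F N t d) :
    ρ g y - y ∈ fil ρ F N (t + 1) d :=
  AddSubgroup.subset_closure (Or.inr ⟨g, hg, y, hy, rfl⟩)

theorem fil_inv (D : Dat k ρ F M) (hN : N.Normal) (q : Q) :
    ∀ t d, ∀ x ∈ fil ρ F N t d, ρ q x ∈ fil ρ F N t d
  | 0, d => D.inv q d
  | t + 1, d => fil_le (W := (fil ρ F N (t + 1) d).comap (ρ q).toAddMonoidHom)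
    (fun i j x hx y hy e => by
      change ρ q ⁅x, y⁆ ∈ fil ρ F N (t + 1) d
      rw [D.lie]
      exact fil_br (D.inv q i x hx) (fil_inv D hN q t j y hy) e)
    fun g hg y hy => by
      change ρ q (ρ g y - y) ∈ fil ρ F N (t + 1) d
      have := fil_dl (hN.conj_mem g hg q) (fil_inv D hN q t d y hy)
      rwa [map_mul, map_mul, Module.End.mul_apply, Module.End.mul_apply, S0P.rep_inv,
        ← map_sub] at this

theorem fil_succ (D : Dat k ρ F M) : ∀ t d, fil ρ F N (t + 1) d ≤ fil ρ F N t d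
  | 0, d => fil_le (fun i j x hx y hy e => e ▸ D.br i j x hx y hy)
    fun g _ y hy => sub_mem (D.inv g d y hy) hy
  | t + 1, d => fil_le (fun _ j _ hx _ hy e => fil_br hx (fil_succ D t j hy) e)
    fun _ hg _ hy => fil_dl hg (fil_succ D t d hy)

theorem fil_anti (D : Dat k ρ F M) {t t' : ℕ} (h : t ≤ t') (d : ι) :
    fil ρ F N t' d ≤ fil ρ F N t d :=
  antitone_nat_of_succ_le (f := fun t => fil ρ F N t d) (fun t => fil_succ D t d) h

theorem fil_lie (D : Dat k ρ F M) (hN : N.Normal) : ∀ s t i j, ∀ y ∈ fil ρ F N t j,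
    ∀ x ∈ fil ρ F N s i, ⁅x, y⁆ ∈ fil ρ F N (s + t + 1) (i + j)
  | 0, t, i, j, y, hy => fun x hx => by rw [zero_add]; exact fil_br hx hy rfl
  | s + 1, t, i, j, y, hy => fil_le
    (W := (fil ρ F N (s + 1 + t + 1) (i + j)).comap (adR y))
    (fun a b u hu v hv e => by
      change ⁅⁅u, v⁆, y⁆ ∈ fil ρ F N (s + 1 + t + 1) (i + j)
      rw [lie_lie]
      refine sub_mem ?_ ?_
      · rw [show s + 1 + t + 1 = s + t + 1 + 1 by omega]
        exact fil_br hu (fil_lie D hN s t b j y hy v hv) (by rw [← e, add_assoc])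
      · have := fil_lie D hN s (t + 1) b (a + j) _ (fil_br hu hy rfl) v hv
        rwa [show s + (t + 1) + 1 = s + 1 + t + 1 by omega, add_left_comm, ← add_assoc a, e] at this)
    fun g hg v hv => by
      change ⁅ρ g v - v, y⁆ ∈ fil ρ F N (s + 1 + t + 1) (i + j)
      have e1 := S0P.rep_inv ρ g⁻¹ y
      rw [inv_inv] at e1
      have h1 := fil_dl hg (fil_lie D hN s t i j _ (fil_inv D hN g⁻¹ t j y hy) v hv)
      have h2 := fil_lie D hN s (t + 1) i j _ (fil_dl (inv_mem hg) hy) v hv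
      rw [D.lie, e1, show s + t + 1 + 1 = s + 1 + t + 1 by omega] at h1
      rw [show s + (t + 1) + 1 = s + 1 + t + 1 by omega] at h2
      convert add_mem h1 h2 using 1
      rw [sub_lie, lie_sub]
      abel

/-- The span of the products of `r` operators `ρ g - 1`. -/
def Dl (ρ : Q →* Module.End K L) (F : ι → AddSubgroup L) (N : Subgroup Q) (r : ℕ) (d : ι) :
    AddSubgroup L :=
  AddSubgroup.closure {z | ∃ l : List Q, l.length = r ∧ (∀ g ∈ l, g ∈ N) ∧ ∃ x ∈ F d, z = dlt ρ l x}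

theorem fil_gen (D : Dat k ρ F M) {s : ℕ}
    (hs : ∀ l : List Q, s ≤ l.length → (∀ g ∈ l, g ∈ N) → ∀ x ∈ Hom F, dlt ρ l x = 0) (t : ℕ)
    (W : ℕ → ι → AddSubgroup L)
    (h1 : ∀ r i j, ∀ x ∈ F i, ∀ y ∈ fil ρ F N (t + r) j, ⁅x, y⁆ ∈ W (r + 1) (i + j))
    (h2 : ∀ r d, ∀ g ∈ N, ∀ y ∈ W r d, ρ g y - y ∈ W (r + 1) d) {r : ℕ} (hr : s ≤ r) (d : ι) :
    fil ρ F N (t + r) d ≤ W r d := by
  have key : ∀ r d, fil ρ F N (t + r) d ≤ W r d ⊔ Dl ρ F N r d := by
    intro r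
    induction r with
    | zero =>
      exact fun d x hx => AddSubgroup.mem_sup_right (AddSubgroup.subset_closure
        ⟨[], rfl, by simp, x, fil_anti D (Nat.zero_le _) d hx, rfl⟩)
    | succ r ih =>
      intro d
      refine fil_le (fun i j x hx y hy e => AddSubgroup.mem_sup_left (e ▸ h1 r i j x hx y hy))
        fun g hg y hy => ?_
      refine (sup_le (fun w hw => AddSubgroup.mem_sup_left (h2 r d g hg w hw))
        ((AddSubgroup.closure_le _).2 ?_) : W r d ⊔ Dl ρ F N r d ≤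
          (W (r + 1) d ⊔ Dl ρ F N (r + 1) d).comap (dl ρ g)) (ih d hy)
      rintro _ ⟨l, hl, hlN, x, hx, rfl⟩
      exact AddSubgroup.mem_sup_right (AddSubgroup.subset_closure
        ⟨g :: l, by simp [hl], by simpa [hg] using hlN, x, hx, rfl⟩)
  refine (key r d).trans (sup_le le_rfl ((AddSubgroup.closure_le _).2 ?_))
  rintro _ ⟨l, hl, hlN, x, hx, rfl⟩
  rw [hs l (hl ▸ hr) hlN x ⟨d, hx⟩]
  exact zero_mem _

/-- The span of the brackets of weight at least `t`. -/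
def bb (ρ : Q →* Module.End K L) (F : ι → AddSubgroup L) (N : Subgroup Q) (t : ℕ) (d : ι) :
    AddSubgroup L :=
  AddSubgroup.closure {z | ∃ a b i j, ∃ x ∈ fil ρ F N a i, ∃ y ∈ fil ρ F N b j,
    t ≤ a + b + 1 ∧ i + j = d ∧ z = ⁅x, y⁆}

theorem fil_bb (D : Dat k ρ F M) (hN : N.Normal) {s : ℕ}
    (hs : ∀ l : List Q, s ≤ l.length → (∀ g ∈ l, g ∈ N) → ∀ x ∈ Hom F, dlt ρ l x = 0) {t : ℕ}
    (ht : s ≤ t) (d : ι) : fil ρ F N t d ≤ bb ρ F N t d := by
  have := fil_gen D hs 0 (bb ρ F N)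
    (fun r i j x hx y hy => AddSubgroup.subset_closure ⟨0, _, i, j, x, hx, y, hy, by omega, rfl, rfl⟩)
    (fun r d g hg => ((AddSubgroup.closure_le _).2 ?_ :
      bb ρ F N r d ≤ (bb ρ F N (r + 1) d).comap (dl ρ g))) ht d
  · rwa [zero_add] at this
  rintro _ ⟨a, b, i, j, x, hx, y, hy, h, e, rfl⟩
  change ρ g ⁅x, y⁆ - ⁅x, y⁆ ∈ bb ρ F N (r + 1) d
  have : ρ g ⁅x, y⁆ - ⁅x, y⁆ = ⁅ρ g x - x, ρ g y⁆ + ⁅x, ρ g y - y⁆ := by
    rw [D.lie, sub_lie, lie_sub]; abel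
  rw [this]
  exact add_mem (AddSubgroup.subset_closure
    ⟨a + 1, b, i, j, _, fil_dl hg hx, _, fil_inv D hN g b j y hy, by omega, e, rfl⟩)
    (AddSubgroup.subset_closure ⟨a, b + 1, i, j, _, hx, _, fil_dl hg hy, by omega, e, rfl⟩)

theorem Z_pred {E : Set L} {e x : L} (he : e ∈ E) : ∀ {m : ℕ}, x ∈ SP.Z E m →
    ⁅e, x⁆ ∈ SP.Z E (m - 1)
  | 0, hx => by rw [AddSubgroup.mem_bot.1 hx, lie_zero]; exact zero_mem _
  | _ + 1, hx => hx e he

theorem fil_bot (D : Dat k ρ F M) {s : ℕ}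
    (hs : ∀ l : List Q, s ≤ l.length → (∀ g ∈ l, g ∈ N) → ∀ x ∈ Hom F, dlt ρ l x = 0) :
    ∃ t, ∀ d, fil ρ F N t d ≤ ⊥ := by
  obtain ⟨T, hT⟩ := D.nilF
  have hZ := SP.Z_inv D.lie (E := Hom F) fun q e ⟨d, he⟩ => ⟨d, D.inv q d e he⟩
  have key : ∀ j d, fil ρ F N (j * s) d ≤ SP.Z (Hom F) (T - j) := by
    intro j
    induction j with
    | zero =>
      exact fun d x hx => SP.mem_Z_of _ x fun w hw hwE =>
        hT w hw hwE x ⟨d, fil_anti D (Nat.zero_le _) d hx⟩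
    | succ j ih =>
      intro d
      rw [add_mul, one_mul]
      exact fil_gen D hs (j * s) (fun _ _ => SP.Z (Hom F) (T - (j + 1)))
        (fun r a b x hx y hy => Z_pred (E := Hom F) ⟨a, hx⟩
          (ih b (fil_anti D (Nat.le_add_right _ _) b hy)))
        (fun _ _ g _ y hy => sub_mem (hZ _ g y hy) hy) le_rfl d
  exact ⟨T * s, fun d => by simpa [SP.Z] using key T d⟩

theorem adw_fil : ∀ w : List L, (∀ y ∈ w, y ∈ Hom F) → ∀ x ∈ Hom F,
    ∃ d, adw w x ∈ fil ρ F N w.length d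
  | [], _, _, hx => hx
  | y :: w, hw, x, hx => by
    obtain ⟨d, hd⟩ := adw_fil w (fun z hz => hw z (List.mem_cons_of_mem _ hz)) x hx
    obtain ⟨i, hi⟩ := hw y List.mem_cons_self
    exact ⟨i + d, fil_br hi hd rfl⟩

/-- Elements lowering the annihilator series by `j`. -/
def wt (E : Set L) (j : ℕ) : AddSubgroup L where
  carrier := {u | ∀ i, ∀ v ∈ SP.Z E i, ⁅u, v⁆ ∈ SP.Z E (i - j)}
  zero_mem' := fun i v _ => by rw [zero_lie]; exact zero_mem _
  add_mem' := fun hx hy i v hv => by rw [add_lie]; exact add_mem (hx i v hv) (hy i v hv)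
  neg_mem' := fun hx i v hv => by rw [neg_lie]; exact neg_mem (hx i v hv)

theorem Z_succ (E : Set L) : ∀ i, SP.Z E i ≤ SP.Z E (i + 1)
  | 0 => bot_le
  | i + 1 => fun _ hx e he => Z_succ E i (hx e he)

theorem wt_lie {E : Set L} {a b c : ℕ} {x y : L} (hx : x ∈ wt E a) (hy : y ∈ wt E b)
    (h : c ≤ a + b) : ⁅x, y⁆ ∈ wt E c := fun i v hv => by
  have hm := monotone_nat_of_le_succ (Z_succ E)
  rw [lie_lie]
  exact sub_mem (hm (by omega) (hx _ _ (hy i v hv))) (hm (by omega) (hy _ _ (hx i v hv)))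

theorem span_lie {S T : Set L} {W : Submodule K L} (h : ∀ x ∈ S, ∀ y ∈ T, ⁅x, y⁆ ∈ W) {x y : L}
    (hx : x ∈ Submodule.span K S) (hy : y ∈ Submodule.span K T) : ⁅x, y⁆ ∈ W := by
  induction hx using Submodule.span_induction with
  | mem x hx =>
    induction hy using Submodule.span_induction with
    | mem y hy => exact h x hx y hy
    | zero => rw [lie_zero]; exact zero_mem _
    | add a b _ _ ha hb => rw [lie_add]; exact add_mem ha hb
    | smul c a _ ha => rw [lie_smul]; exact W.smul_mem c ha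
  | zero => rw [zero_lie]; exact zero_mem _
  | add a b _ _ ha hb => rw [add_lie]; exact add_mem ha hb
  | smul c a _ ha => rw [smul_lie]; exact W.smul_mem c ha

theorem span_inv {S : Set L} {f : Module.End K L} (h : ∀ x ∈ S, f x ∈ S) {x : L}
    (hx : x ∈ Submodule.span K S) : f x ∈ Submodule.span K S :=
  (Submodule.span_le.2 fun y hy => Submodule.subset_span (h y hy) :
    Submodule.span K S ≤ (Submodule.span K S).comap f) hx

end PS

end Pool.Agent.P.MP_169bcc_al.NC
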