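import Pool.Agent.P.MP_169bcc_al.NC.PFil

/-!
The step of prime power order.
-/

noncomputable section

namespace Pool.Agent.P.MP_169bcc_al.NC

namespace PS

attribute [local instance] GrF.ring GrF.alg

variable {K L ι Q : Type} [Field K] [LieRing L] [LieAlgebra K L] [AddCommMonoid ι] [Group Q]

/-- The numerators. -/
def AA (ρ : Q →* Module.End K L) (F : ι → AddSubgroup L) (N : Subgroup Q) (p : ι × ℕ) :
    Submodule K L := Submodule.span K (fil ρ F N (p.2 - 1) p.1)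

/-- The denominators. -/
def BB (ρ : Q →* Module.End K L) (F : ι → AddSubgroup L) (N : Subgroup Q) (p : ι × ℕ) :
    Submodule K L := Submodule.span K (fil ρ F N p.2 p.1)

variable {ρ : Q →* Module.End K L} {F : ι → AddSubgroup L} {N : Subgroup Q} {k : ℕ} {M : Set L}

theorem mA {p : ι × ℕ} {x : L} (h : x ∈ fil ρ F N (p.2 - 1) p.1) : x ∈ AA ρ F N p :=
  Submodule.subset_span h

theorem lieA (D : Dat k ρ F M) (hN : N.Normal) (p q : ι × ℕ) {x y : L}
    (hx : x ∈ fil ρ F N (p.2 - 1) p.1) (hy : y ∈ fil ρ F N (q.2 - 1) q.1) :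
    ⁅x, y⁆ ∈ fil ρ F N ((p + q).2 - 1) (p + q).1 :=
  fil_anti D (by simp only [Prod.snd_add]; omega) _ (fil_lie D hN _ _ _ _ y hy x hx)

theorem exists_gr (hG : StGrF) (D : Dat k ρ F M) (hN : N.Normal) :
    Nonempty (GrF K ρ (AA ρ F N) (BB ρ F N)) :=
  hG K L (ι × ℕ) Q ρ _ _ D.lie (fun p => Submodule.span_mono (fil_anti D (Nat.sub_le _ _) p.1))
    (fun p q _ hx _ hy => span_lie (fun _ hx _ hy => mA (lieA D hN p q hx hy)) hx hy)
    (fun p q _ hx _ hy => span_lie (fun x hx y hy => Submodule.subset_span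
      (fil_anti D (by simp only [Prod.snd_add]; omega) _ (fil_lie D hN _ _ _ _ y hy x hx))) hx hy)
    (fun q _ _ hx => span_inv (fil_inv D hN q _ _) hx)
    fun q _ _ hx => span_inv (fil_inv D hN q _ _) hx

variable (Γ : GrF K ρ (AA ρ F N) (BB ρ F N))

theorem π_zero (p : ι × ℕ) : Γ.π p 0 = 0 := (Γ.π_eq_zero p 0 (zero_mem _)).2 (zero_mem _)

theorem π_neg {p : ι × ℕ} {x : L} (hx : x ∈ AA ρ F N p) : Γ.π p (-x) = -Γ.π p x := by
  have := Γ.π_add p x hx (-x) (neg_mem hx)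
  rw [add_neg_cancel, π_zero] at this
  exact eq_neg_of_add_eq_zero_right this.symm

/-- The homogeneous components of the graded algebra. -/
def FF (p : ι × ℕ) : AddSubgroup Γ.L' where
  carrier := {v | ∃ x ∈ fil ρ F N (p.2 - 1) p.1, Γ.π p x = v}
  zero_mem' := ⟨0, zero_mem _, π_zero Γ p⟩
  add_mem' := by
    rintro _ _ ⟨x, hx, rfl⟩ ⟨y, hy, rfl⟩
    exact ⟨x + y, add_mem hx hy, Γ.π_add p x (mA hx) y (mA hy)⟩
  neg_mem' := by
    rintro _ ⟨x, hx, rfl⟩
    exact ⟨-x, neg_mem hx, π_neg Γ (mA hx)⟩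

/-- The image of a set. -/
def im (S : Set L) : Set Γ.L' :=
  {v | ∃ p : ι × ℕ, ∃ x ∈ fil ρ F N (p.2 - 1) p.1, x ∈ S ∧ Γ.π p x = v}

theorem kills_im (D : Dat k ρ F M) (hN : N.Normal) {S : Set L} {T : ℕ} (h : Kills S S T) :
    Kills (im Γ S) (im Γ S) T := by
  rintro w' hw hwS _ ⟨p, x, hx, hxS, rfl⟩
  have key : ∀ w' : List Γ.L', (∀ y ∈ w', y ∈ im Γ S) → ∃ w : List L, w.length = w'.length ∧
      (∀ y ∈ w, y ∈ S) ∧ ∃ q : ι × ℕ, adw w x ∈ fil ρ F N (q.2 - 1) q.1 ∧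
        adw w' (Γ.π p x) = Γ.π q (adw w x) := by
    intro w'
    induction w' with
    | nil => exact fun _ => ⟨[], rfl, by simp, p, hx, rfl⟩
    | cons y w' ih =>
      intro hw
      obtain ⟨w, h1, h2, q, h3, h4⟩ := ih fun z hz => hw z (List.mem_cons_of_mem _ hz)
      obtain ⟨r, z, hz, hzS, rfl⟩ := hw y List.mem_cons_self
      exact ⟨z :: w, by simp [h1], by simpa [hzS] using h2, r + q, lieA D hN r q hz h3, by
        rw [adw_cons, h4, Γ.π_lie r q z (mA hz) _ (mA h3), adw_cons]⟩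
  obtain ⟨w, h1, h2, q, -, h4⟩ := key w' hwS
  rw [h4, h w (h1 ▸ hw) h2 x hxS, π_zero]

theorem dat (D : Dat k ρ F M) (hN : N.Normal) : Dat k Γ.σ (FF Γ) (im Γ M) where
  lie := Γ.σ_lie
  br := by
    rintro p q _ ⟨x, hx, rfl⟩ _ ⟨y, hy, rfl⟩
    exact ⟨_, lieA D hN p q hx hy, (Γ.π_lie p q x (mA hx) y (mA hy)).symm⟩
  inv := by
    rintro g p _ ⟨x, hx, rfl⟩
    exact ⟨_, fil_inv D hN g _ _ x hx, (Γ.σ_π g p x (mA hx)).symm⟩
  cov := by
    rintro _ ⟨p, x, hx, rfl⟩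
    obtain ⟨g, hg⟩ := D.cov x ⟨_, fil_anti D (Nat.zero_le _) _ hx⟩
    exact ⟨g, p, _, fil_inv D hN g _ _ x hx, hg, (Γ.σ_π g p x (mA hx)).symm⟩
  nilM := kills_im Γ D hN D.nilM
  nilF := by
    obtain ⟨T, hT⟩ := D.nilF
    have : Hom (FF Γ) ⊆ im Γ (Hom F) := by
      rintro _ ⟨p, x, hx, rfl⟩
      exact ⟨p, x, hx, ⟨_, fil_anti D (Nat.zero_le _) _ hx⟩, rfl⟩
    exact ⟨T, (kills_im Γ D hN hT).mono this this le_rfl⟩

theorem triv (D : Dat k ρ F M) (hN : N.Normal) : ∀ g ∈ N, ∀ v ∈ Hom (FF Γ), Γ.σ g v = v := by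
  rintro g hg _ ⟨p, x, hx, rfl⟩
  have h1 := fil_inv D hN g _ _ x hx
  have h2 := Γ.π_add p _ (mA (sub_mem h1 hx)) x (mA hx)
  rw [sub_add_cancel, (Γ.π_eq_zero p _ (mA (sub_mem h1 hx))).2
    (Submodule.subset_span (fil_anti D (by omega) _ (fil_dl hg hx))), zero_add] at h2
  rw [Γ.σ_π g p x (mA hx), h2]

theorem bb_le (D : Dat k ρ F M) (hN : N.Normal) {t : ℕ} {d : ι} (S : AddSubgroup Γ.L')
    (h : ∀ a b i j, ∀ x ∈ fil ρ F N a i, ∀ y ∈ fil ρ F N b j, a + b + 1 = t →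
      ⁅Γ.π (i, a + 1) x, Γ.π (j, b + 1) y⁆ ∈ S) :
    ∀ x ∈ bb ρ F N t d, x ∈ fil ρ F N t d ∧ Γ.π (d, t + 1) x ∈ S := by
  have hA : ∀ {t d x}, x ∈ fil ρ F N t d → x ∈ AA ρ F N (d, t + 1) := fun hx => mA hx
  intro x hx
  induction hx using AddSubgroup.closure_induction with
  | mem z hz =>
    obtain ⟨a, b, i, j, x, hx, y, hy, h1, rfl, rfl⟩ := hz
    have h2 := fil_lie D hN a b i j y hy x hx
    refine ⟨fil_anti D h1 _ h2, ?_⟩
    rcases h1.eq_or_lt with rfl | h1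
    · have := h a b i j x hx y hy rfl
      rwa [Γ.π_lie _ _ x (hA hx) y (hA hy), Prod.mk_add_mk,
        show a + 1 + (b + 1) = a + b + 1 + 1 by omega] at this
    · rw [(Γ.π_eq_zero _ _ (hA (fil_anti D h1.le _ h2))).2
        (Submodule.subset_span (fil_anti D h1 _ h2))]
      exact zero_mem _
  | zero => exact ⟨zero_mem _, by rw [π_zero]; exact zero_mem _⟩
  | add x y _ _ hx hy =>
    exact ⟨add_mem hx.1 hy.1, by rw [Γ.π_add _ x (hA hx.1) y (hA hy.1)]; exact add_mem hx.2 hy.2⟩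
  | neg x _ hx => exact ⟨neg_mem hx.1, by rw [π_neg Γ (hA hx.1)]; exact neg_mem hx.2⟩

end PS

attribute [local instance] GrF.ring GrF.alg in
open PS in
theorem pstep (hG : StGrF) {K L ι Q : Type} [Field K] [LieRing L] [LieAlgebra K L]
    [AddCommMonoid ι] [Group Q] {ρ : Q →* Module.End K L} {F : ι → AddSubgroup L}
    {N : Subgroup Q} {k c s : ℕ} {M : Set L} (D : Dat k ρ F M) (hN : N.Normal) (hs0 : 0 < s)
    (hB : Bd k c K N)
    (hs : ∀ l : List Q, s ≤ l.length → (∀ g ∈ l, g ∈ N) → ∀ x ∈ Hom F, dlt ρ l x = 0) :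
    Kills (Hom F) (Hom F) (2 * (c * s) + s) := by
  obtain ⟨Γ⟩ := exists_gr hG D hN
  have hK := hB _ _ Γ.σ (FF Γ) (im Γ M) (dat Γ D hN) (triv Γ D hN)
  have hH : ∀ {t d x}, x ∈ fil ρ F N t d → Γ.π (d, t + 1) x ∈ Hom (FF Γ) :=
    fun {t d x} hx => ⟨(d, t + 1), x, hx, rfl⟩
  have h1 : ∀ t j, j * s ≤ t → ∀ d, ∀ x ∈ fil ρ F N t d,
      Γ.π (d, t + 1) x ∈ wt (Hom (FF Γ)) (j + 1) := by
    intro t
    induction t using Nat.strong_induction_on with
    | _ t ih =>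
      intro j hj d x hx
      rcases j with _ | j
      · exact fun i v hv => Z_pred (hH hx) hv
      refine (bb_le Γ D hN _ (fun a b i i' y hy z hz e => ?_) x
        (fil_bb D hN hs (le_trans (by rw [add_mul]; omega) hj) d hx)).2
      refine wt_lie (ih a (by omega) (a / s) (Nat.div_mul_le_self a s) i y hy)
        (ih b (by omega) (b / s) (Nat.div_mul_le_self b s) i' z hz) ?_
      have ha := Nat.lt_div_mul_add (a := a) hs0
      have hb := Nat.lt_div_mul_add (a := b) hs0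
      have : (j + 1) * s < (a / s + b / s + 2) * s := by
        rw [add_mul (a / s + b / s), add_mul (a / s)]; omega
      have := Nat.lt_of_mul_lt_mul_right this
      omega
  have h2 : ∀ t, c * s ≤ t → ∀ d, ∀ x ∈ fil ρ F N t d, ∀ v ∈ Hom (FF Γ),
      ⁅Γ.π (d, t + 1) x, v⁆ = 0 := fun t ht d x hx v hv => by
    have := h1 t c ht d x hx c v (SP.mem_Z_of _ v fun w hw hwE => hK w hw hwE v hv)
    rwa [show c - (c + 1) = 0 by omega] at this
  have h3 : ∀ t, 2 * (c * s) + s ≤ t → ∀ d, ∀ x ∈ fil ρ F N t d,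
      x ∈ Submodule.span K (fil ρ F N (t + 1) d : Set L) := fun t ht d x hx => by
    refine (Γ.π_eq_zero (d, t + 1) x (mA hx)).1 (AddSubgroup.mem_bot.1
      (bb_le Γ D hN ⊥ (fun a b i j y hy z hz e => AddSubgroup.mem_bot.2 ?_) x
        (fil_bb D hN hs (by omega) d hx)).2)
    by_cases ha : c * s ≤ a
    · exact h2 a ha i y hy _ (hH hz)
    · rw [← lie_skew, h2 b (by omega) j z hz _ (hH hy), neg_zero]
  obtain ⟨T, hT⟩ := fil_bot D hs
  intro w hw hwE x hx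
  obtain ⟨d, hd⟩ := adw_fil (ρ := ρ) (N := N) w hwE x hx
  have h4 : ∀ r, adw w x ∈ Submodule.span K (fil ρ F N (w.length + r) d : Set L) := by
    intro r
    induction r with
    | zero => exact Submodule.subset_span hd
    | succ r ih =>
      exact Submodule.span_le.2 (fun y hy => h3 (w.length + r) (by omega) d y hy) ih
  exact (Submodule.mem_bot K).1 (Submodule.span_le.2 (fun y hy => by
    have := hT d (fil_anti D (Nat.le_add_left T w.length) d hy)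
    rw [AddSubgroup.mem_bot.1 this]
    exact zero_mem _) (h4 T))

end Pool.Agent.P.MP_169bcc_al.NC
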