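import Pool.Agent.P.MP_169bcc_al.NC.Spec

/-!
Commuting operators with types.
-/

noncomputable section

namespace Pool.Agent.P.MP_169bcc_al.NC

namespace S0P

open Classical

variable {K L Q : Type} [Field K] [LieRing L] [LieAlgebra K L] [Group Q]

theorem rep_inv (ρ : Q →* Module.End K L) (g : Q) (x : L) : ρ g⁻¹ (ρ g x) = x := by
  rw [← Module.End.mul_apply, ← map_mul, inv_mul_cancel, map_one, Module.End.one_apply]

theorem rep_adw {ρ : Q →* Module.End K L} (h : ∀ q x y, ρ q ⁅x, y⁆ = ⁅ρ q x, ρ q y⁆) (g : Q)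
    (w : List L) (x : L) : ρ g (adw w x) = adw (w.map (ρ g)) (ρ g x) := by
  induction w with
  | nil => rfl
  | cons y w ih => simp [h, ih]

theorem adw_sum {ι : Type} (w : List L) (s : Finset ι) (f : ι → L) :
    adw w (∑ i ∈ s, f i) = ∑ i ∈ s, adw w (f i) :=
  map_sum (AddMonoidHom.mk' (adw w) (adw_add w)) f s

/-- The number of letters of a given type. -/
def cnt (q : Q) (w : List (L × Q)) : ℕ := (w.map Prod.snd).count q

omit [LieRing L] [Group Q] in
theorem cnt_append (q : Q) (v w : List (L × Q)) : cnt q (v ++ w) = cnt q v + cnt q w := by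
  simp [cnt]

omit [LieRing L] [Group Q] in
theorem cnt_perm (q : Q) {v w : List (L × Q)} (h : v.Perm w) : cnt q v = cnt q w :=
  (h.map _).count_eq q

omit [LieRing L] [Group Q] in
theorem cnt_cons (q : Q) (y : L × Q) (w : List (L × Q)) :
    cnt q (y :: w) = cnt q w + if y.2 = q then 1 else 0 := by
  simp [cnt, List.count_cons]

omit [LieRing L] [Group Q] in
theorem cnt_filter (q : Q) (w : List (L × Q)) :
    (w.filter fun y => decide (y.2 = q)).length = cnt q w := by
  induction w with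
  | nil => rfl
  | cons y w ih => by_cases h : y.2 = q <;> simp [cnt_cons, h, ih]

omit [LieRing L] [Group Q] in
theorem split (w : List (L × Q)) : ∃ w₁ w₂ : List (L × Q), w.Perm (w₂ ++ w₁) ∧
    ∀ q, cnt q w₁ ≤ cnt q w₂ + 1 ∧ cnt q w₂ ≤ cnt q w₁ + 1 := by
  induction w with
  | nil => exact ⟨[], [], List.Perm.refl _, fun q => by simp⟩
  | cons y w ih =>
    obtain ⟨w₁, w₂, h1, h2⟩ := ih
    by_cases h : cnt y.2 w₁ ≤ cnt y.2 w₂
    · refine ⟨y :: w₁, w₂, (h1.cons y).trans List.perm_middle.symm, fun q => ?_⟩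
      have := h2 q
      rw [cnt_cons]
      split_ifs with hq
      · subst hq; omega
      · omega
    · refine ⟨w₁, y :: w₂, h1.cons y, fun q => ?_⟩
      have := h2 q
      rw [cnt_cons]
      split_ifs with hq
      · subst hq; omega
      · omega

/-- Translation of a typed letter. -/
def tr (ρ : Q →* Module.End K L) (g : Q) (y : L × Q) : L × Q := (ρ g y.1, y.2 * g⁻¹)

theorem cnt_tr (ρ : Q →* Module.End K L) (g q : Q) (w : List (L × Q)) :
    cnt (q * g⁻¹) (w.map (tr ρ g)) = cnt q w := by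
  induction w with
  | nil => rfl
  | cons y w ih => simp [cnt_cons, ih, tr]

theorem fst_tr (ρ : Q →* Module.End K L) (g : Q) (w : List (L × Q)) :
    (w.map (tr ρ g)).map Prod.fst = (w.map Prod.fst).map (ρ g) := by
  simp [tr, Function.comp_def]

structure Hy {ι : Type} (k : ℕ) (ρ : Q →* Module.End K L) (M E : Set L) (B : ι → AddSubgroup L)
    (W : AddSubgroup L) : Prop where
  lie : ∀ q x y, ρ q ⁅x, y⁆ = ⁅ρ q x, ρ q y⁆
  nil : Kills M M k
  tyB : ∀ x ∈ Hom B, ∃ q, ρ q x ∈ M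
  invE : ∀ q, ∀ e ∈ E, ρ q e ∈ E
  invB : ∀ q d, ∀ x ∈ B d, ρ q x ∈ B d
  invW : ∀ q, ∀ x ∈ W, ρ q x ∈ W
  EB : ∀ e ∈ E, ∀ x ∈ Hom B, ⁅e, x⁆ ∈ Hom B
  EW : ∀ e ∈ E, ∀ x ∈ W, ⁅e, x⁆ ∈ W
  comm : ∀ e ∈ E, ∀ e' ∈ E, ∀ x ∈ Hom B, ⁅⁅e, e'⁆, x⁆ ∈ W

/-- A typed word. -/
def Ty (ρ : Q →* Module.End K L) (M E : Set L) (w : List (L × Q)) : Prop :=
  ∀ y ∈ w, y.1 ∈ E ∧ ρ y.2 y.1 ∈ M

variable {ι : Type} {k : ℕ} {ρ : Q →* Module.End K L} {M E : Set L} {B : ι → AddSubgroup L}
  {W : AddSubgroup L}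

theorem Ty.fst {w : List (L × Q)} (h : Ty ρ M E w) : ∀ y ∈ w.map Prod.fst, y ∈ E := by
  intro y hy
  obtain ⟨z, hz, rfl⟩ := List.mem_map.1 hy
  exact (h z hz).1

theorem Ty.tr (H : Hy k ρ M E B W) {w : List (L × Q)} (h : Ty ρ M E w) (g : Q) :
    Ty ρ M E (w.map (tr ρ g)) := by
  intro y hy
  obtain ⟨z, hz, rfl⟩ := List.mem_map.1 hy
  refine ⟨H.invE g _ (h z hz).1, ?_⟩
  simp only [S0P.tr, map_mul, Module.End.mul_apply, rep_inv]
  exact (h z hz).2

theorem perm_sub (H : Hy k ρ M E B W) {v w : List L} (h : v.Perm w) (hv : ∀ y ∈ v, y ∈ E)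
    {x : L} (hx : x ∈ Hom B) : adw v x - adw w x ∈ W := by
  induction h with
  | nil => simp
  | cons y _ ih =>
    rw [adw_cons, adw_cons, ← lie_sub]
    exact H.EW y (hv y List.mem_cons_self) _ (ih fun z hz => hv z (List.mem_cons_of_mem _ hz))
  | swap y z l =>
    simp only [adw_cons]
    rw [← lie_lie]
    exact H.comm z (hv z (by simp)) y (hv y (by simp)) _
      (adw_mem H.EB l (fun u hu => hv u (by simp [hu])) hx)
  | trans h1 _ ih1 ih2 =>
    have := W.add_mem (ih1 hv) (ih2 fun y hy => hv y (h1.mem_iff.2 hy))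
    rwa [sub_add_sub_cancel] at this

theorem perm_mem (H : Hy k ρ M E B W) {v w : List (L × Q)} (h : v.Perm w) (hv : Ty ρ M E v)
    {x : L} (hx : x ∈ Hom B) (hw : adw (w.map Prod.fst) x ∈ W) : adw (v.map Prod.fst) x ∈ W := by
  have := W.add_mem (perm_sub H (h.map Prod.fst) hv.fst hx) hw
  rwa [sub_add_cancel] at this

theorem kill (H : Hy k ρ M E B W) {w : List (L × Q)} (hw : Ty ρ M E w) {i : Q} (hk : k ≤ cnt i w)
    {c : L} (hc : c ∈ Hom B) (hi : ρ i c ∈ M) : adw (w.map Prod.fst) c ∈ W := by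
  refine perm_mem H ((List.filter_append_perm (fun y => decide (y.2 = i)) w).symm.trans
    List.perm_append_comm) hw hc ?_
  have h0 : adw ((w.filter fun y => decide (y.2 = i)).map Prod.fst) c = 0 := by
    rw [← rep_inv ρ i (adw _ c), rep_adw H.lie i, H.nil _ (by simpa [cnt_filter] using hk) _ _ hi,
      map_zero]
    intro y hy
    simp only [List.mem_map, List.mem_filter, decide_eq_true_eq] at hy
    obtain ⟨_, ⟨z, ⟨hz, rfl⟩, rfl⟩, rfl⟩ := hy
    exact (hw z hz).2
  rw [List.map_append, adw_append, h0, adw_zero]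
  exact W.zero_mem

theorem main [Fintype Q] (H : Hy k ρ M E B W) (j : ℕ) : ∀ S : Finset Q, S.Nonempty →
    Fintype.card Q + 1 ≤ S.card + j → ∀ w : List (L × Q), Ty ρ M E w →
    (∀ q ∈ S, 2 ^ j * k ≤ cnt q w) → ∀ b ∈ Hom B, adw (w.map Prod.fst) b ∈ W := by
  induction j with
  | zero => exact fun S _ h => absurd (Finset.card_le_univ S) (by omega)
  | succ j ih =>
    intro S hS hj w hw hc b hb
    obtain ⟨w₁, w₂, hp, hb2⟩ := split w
    have t1 : Ty ρ M E w₁ := fun y hy => hw y (hp.mem_iff.2 (by simp [hy]))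
    have t2 : Ty ρ M E w₂ := fun y hy => hw y (hp.mem_iff.2 (by simp [hy]))
    have c12 : ∀ q ∈ S, 2 ^ j * k ≤ cnt q w₁ ∧ 2 ^ j * k ≤ cnt q w₂ := fun q hq => by
      have h1 := hc q hq
      have h2 := hb2 q
      rw [cnt_perm q hp, cnt_append, pow_succ, mul_right_comm] at h1
      omega
    let tS : Q → Finset Q := fun g => S.image (· * g⁻¹)
    have tc : ∀ g, (tS g).card = S.card := fun g =>
      Finset.card_image_of_injective _ (mul_left_injective _)
    let T : Finset (Finset Q) := Finset.univ.image tS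
    have hT : ∀ X : Finset Q, ∃ g, X ∈ T → tS g = X := fun X => by
      by_cases hX : X ∈ T
      · obtain ⟨g, -, hg⟩ := Finset.mem_image.1 hX
        exact ⟨g, fun _ => hg⟩
      · exact ⟨1, fun h => absurd h hX⟩
    choose g hg using hT
    have ct : ∀ X ∈ T, ∀ q ∈ X, 2 ^ j * k ≤ cnt q (w₁.map (tr ρ (g X))) ∧
        2 ^ j * k ≤ cnt q (w₂.map (tr ρ (g X))) := fun X hX q hq => by
      rw [← hg X hX] at hq
      obtain ⟨s, hs, rfl⟩ := Finset.mem_image.1 hq
      rw [cnt_tr, cnt_tr]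
      exact c12 s hs
    obtain ⟨d, hd⟩ := adw_mem H.EB _ t1.fst hb
    have hcB : ∑ X ∈ T, ρ (g X) (adw (w₁.map Prod.fst) b) ∈ Hom B :=
      ⟨d, (B d).sum_mem fun X _ => H.invB _ d _ hd⟩
    obtain ⟨i, hi⟩ := H.tyB _ hcB
    obtain ⟨s, hs⟩ := hS
    have hY : tS (i⁻¹ * s) ∈ T := Finset.mem_image_of_mem _ (Finset.mem_univ _)
    have hiY : i ∈ tS (i⁻¹ * s) := Finset.mem_image.2 ⟨s, hs, by group⟩
    generalize tS (i⁻¹ * s) = Y at hY hiY
    have h1 := kill H (t2.tr H (g Y)) (le_trans (Nat.le_mul_of_pos_left k (by positivity))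
      (ct Y hY i hiY).2) hcB hi
    rw [adw_sum, ← Finset.add_sum_erase T _ hY] at h1
    have h2 : ∑ X ∈ T.erase Y, adw ((w₂.map (tr ρ (g Y))).map Prod.fst)
        (ρ (g X) (adw (w₁.map Prod.fst) b)) ∈ W := by
      refine W.sum_mem fun X hX => ?_
      obtain ⟨hXY, hX⟩ := Finset.mem_erase.1 hX
      obtain ⟨d', hd'⟩ := hb
      rw [rep_adw H.lie, ← fst_tr, ← adw_append, ← List.map_append]
      refine ih (X ∪ Y) ⟨i, Finset.mem_union_right _ hiY⟩ ?_ _ ?_ ?_ _ ⟨d', H.invB _ d' _ hd'⟩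
      · have e1 : X.card = S.card := by rw [← hg X hX, tc]
        have e2 : Y.card = S.card := by rw [← hg Y hY, tc]
        have : Y.card < (X ∪ Y).card := Finset.card_lt_card
          ⟨Finset.subset_union_right, fun h => hXY (Finset.eq_of_subset_of_card_le
            (Finset.subset_union_left.trans h) (by omega))⟩
        omega
      · intro y hy
        rcases List.mem_append.1 hy with hy | hy
        exacts [t2.tr H _ y hy, t1.tr H _ y hy]
      · intro q hq
        rw [cnt_append]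
        rcases Finset.mem_union.1 hq with hq | hq
        · exact (ct X hX q hq).1.trans (Nat.le_add_left _ _)
        · exact (ct Y hY q hq).2.trans (Nat.le_add_right _ _)
    have h3 := H.invW (g Y)⁻¹ _ ((W.add_mem_cancel_right h2).1 h1)
    rw [fst_tr, ← rep_adw H.lie, rep_inv, ← adw_append, ← List.map_append] at h3
    exact perm_mem H hp hw hb h3

end S0P

open S0P in
theorem s0_ok : StS0 := by
  classical
  intro k K L Q ι _ _ _ _ _ ρ M E B W h1 h2 h3 h4 h5 h6 h7 h8 h9 h10 w hw hwE x hx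
  have := Fintype.ofFinite Q
  have H : Hy k ρ M E B W := ⟨h1, h2, h4, h5, h6, h7, h8, h9, h10⟩
  choose! t ht using h3
  let v : List (L × Q) := w.map fun e => (e, t e)
  have hv : v.map Prod.fst = w := by simp [v, Function.comp_def]
  have hT : Ty ρ M E v := by
    intro y hy
    obtain ⟨z, hz, rfl⟩ := List.mem_map.1 hy
    exact ⟨hwE z hz, ht z (hwE z hz)⟩
  rw [Nat.card_eq_fintype_card] at hw
  obtain ⟨q, hq⟩ : ∃ q, 2 ^ Fintype.card Q * k ≤ cnt q v := by
    by_contra! h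
    have h1 : ∑ q, cnt q v = w.length := by
      have := Multiset.sum_count_eq_card (m := ((v.map Prod.snd : List Q) : Multiset Q)) (s := Finset.univ)
        fun a _ => Finset.mem_univ a
      simp only [Multiset.coe_count, Multiset.coe_card] at this
      unfold cnt
      convert this using 1
      simp [v]
    have h2 := Finset.sum_lt_sum_of_nonempty Finset.univ_nonempty fun q _ => h q
    rw [h1, Finset.sum_const, Finset.card_univ, smul_eq_mul] at h2
    omega
  rw [← hv]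
  exact main H (Fintype.card Q) {q} (Finset.singleton_nonempty q) (by simp [add_comm]) v hT
    (fun q' hq' => Finset.mem_singleton.1 hq' ▸ hq) x hx

end Pool.Agent.P.MP_169bcc_al.NC
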