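import Mathlib

/-!
Nilpotent covering subgroups: definitions, small tools and the statements of the packages.
-/

open scoped commutatorElement

noncomputable section

namespace Pool.Agent.P.MP_169bcc_al.NC

section Lie

variable {L : Type} [LieRing L]

/-- The iterated bracket `⁅w₁, ⁅w₂, ... ⁅w_t, x⁆⁆⁆`. -/
def adw (w : List L) (x : L) : L := w.foldr (fun y z => ⁅y, z⁆) x

@[simp] theorem adw_nil (x : L) : adw [] x = x := rfl

@[simp] theorem adw_cons (y : L) (w : List L) (x : L) : adw (y :: w) x = ⁅y, adw w x⁆ := rfl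

theorem adw_append (v w : List L) (x : L) : adw (v ++ w) x = adw v (adw w x) := by
  simp [adw, List.foldr_append]

@[simp] theorem adw_zero (w : List L) : adw w (0 : L) = 0 := by
  induction w with
  | nil => rfl
  | cons y w ih => simp [ih]

theorem adw_add (w : List L) (x y : L) : adw w (x + y) = adw w x + adw w y := by
  induction w with
  | nil => rfl
  | cons z w ih => simp [ih]

theorem adw_sub (w : List L) (x y : L) : adw w (x - y) = adw w x - adw w y := by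
  induction w with
  | nil => rfl
  | cons z w ih => simp [ih]

theorem adw_smul {K : Type} [CommRing K] [LieAlgebra K L] (w : List L) (c : K) (x : L) :
    adw w (c • x) = c • adw w x := by
  induction w with
  | nil => rfl
  | cons z w ih => simp [ih]

theorem adw_mem {E F : Set L} (h : ∀ e ∈ E, ∀ x ∈ F, ⁅e, x⁆ ∈ F) (w : List L)
    (hw : ∀ y ∈ w, y ∈ E) {x : L} (hx : x ∈ F) : adw w x ∈ F := by
  induction w with
  | nil => exact hx
  | cons z w ih =>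
    exact h z (hw z List.mem_cons_self) _ (ih fun y hy => hw y (List.mem_cons_of_mem _ hy))

/-- Every product of at least `T` inner derivations by elements of `E` kills `F`. -/
def Kills (E F : Set L) (T : ℕ) : Prop :=
  ∀ w : List L, T ≤ w.length → (∀ y ∈ w, y ∈ E) → ∀ x ∈ F, adw w x = 0

theorem Kills.mono {E F E' F' : Set L} {T T' : ℕ} (h : Kills E F T) (hE : E' ⊆ E) (hF : F' ⊆ F)
    (hT : T ≤ T') : Kills E' F' T' :=
  fun w hw hw' x hx => h w (hT.trans hw) (fun y hy => hE (hw' y hy)) x (hF hx)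

/-- The set of brackets of two elements of `E`. -/
def dd (E : Set L) : Set L := {z | ∃ x ∈ E, ∃ y ∈ E, z = ⁅x, y⁆}

theorem dd_mono {E F : Set L} (h : E ⊆ F) : dd E ⊆ dd F :=
  fun _ ⟨x, hx, y, hy, e⟩ => ⟨x, h hx, y, h hy, e⟩

theorem dd_iter_mono (s : ℕ) {E F : Set L} (h : E ⊆ F) : dd^[s] E ⊆ dd^[s] F := by
  induction s generalizing E F with
  | zero => exact h
  | succ s ih => exact ih (dd_mono h)

/-- The homogeneous elements of a family. -/
def Hom {ι : Type} (F : ι → AddSubgroup L) : Set L := {x | ∃ d, x ∈ F d}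

end Lie

section Grp

variable {G : Type} [Group G]

theorem three {A B C M : Subgroup G} [M.Normal] (h1 : ⁅⁅B, C⁆, A⁆ ≤ M) (h2 : ⁅⁅C, A⁆, B⁆ ≤ M) :
    ⁅⁅A, B⁆, C⁆ ≤ M := by
  have key : ∀ H : Subgroup G, H ≤ M ↔ H.map (QuotientGroup.mk' M) = ⊥ := fun H => by
    rw [Subgroup.map_eq_bot_iff, QuotientGroup.ker_mk']
  rw [key] at h1 h2 ⊢
  simp only [Subgroup.map_commutator] at h1 h2 ⊢
  exact Subgroup.commutator_commutator_eq_bot_of_rotate h1 h2

theorem top_add (b : ℕ) : ∀ a, ⁅(⊤ : Subgroup G).lowerCentralSeries a,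
    (⊤ : Subgroup G).lowerCentralSeries b⁆ ≤ (⊤ : Subgroup G).lowerCentralSeries (a + b + 1) := by
  induction b with
  | zero => exact fun a => le_rfl
  | succ b ih =>
    intro a
    rw [Subgroup.lowerCentralSeries_succ ⊤ b, Subgroup.commutator_comm]
    refine three ?_ ?_
    · rw [Subgroup.commutator_comm ⊤, ← Subgroup.lowerCentralSeries_succ,
        show a + (b + 1) + 1 = a + 1 + b + 1 by omega]
      exact ih (a + 1)
    · exact Subgroup.commutator_mono (ih a) le_rfl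

theorem lcs_add (E : Subgroup G) (a b : ℕ) :
    ⁅E.lowerCentralSeries a, E.lowerCentralSeries b⁆ ≤ E.lowerCentralSeries (a + b + 1) := by
  simp only [← Subgroup.top_subtype_lowerCentralSeries E]
  rw [← Subgroup.map_commutator]
  exact Subgroup.map_mono (top_add b a)

theorem lcs_comm (E : Subgroup G) {a b : ℕ} {x y : G} (hx : x ∈ E.lowerCentralSeries a)
    (hy : y ∈ E.lowerCentralSeries b) : ⁅x, y⁆ ∈ E.lowerCentralSeries (a + b + 1) :=
  lcs_add E a b (Subgroup.commutator_mem_commutator hx hy)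

theorem lcs_normal (E : Subgroup G) (hE : E.Normal) (a : ℕ) : (E.lowerCentralSeries a).Normal := by
  induction a with
  | zero => exact hE
  | succ a ih => rw [Subgroup.lowerCentralSeries_succ]; infer_instance

end Grp

/-- The Lie algebra `K ⊗ gr H` of the lower central series of `H`, with the action of `A`. -/
structure GrL (K : Type) [Field K] {A : Type} [Group A] (H : Subgroup A) where
  L : Type
  [ring : LieRing L]
  [alg : LieAlgebra K L]
  π : ℕ → A → L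
  ρ : A →* Module.End K L
  π_mul : ∀ i, ∀ x ∈ H.lowerCentralSeries i, ∀ y ∈ H.lowerCentralSeries i,
    π i (x * y) = π i x + π i y
  π_zero : ∀ i, ∀ x ∈ H.lowerCentralSeries (i + 1), π i x = 0
  π_lie : ∀ i j, ∀ x ∈ H.lowerCentralSeries i, ∀ y ∈ H.lowerCentralSeries j,
    ⁅π i x, π j y⁆ = π (i + j + 1) ⁅x, y⁆
  ρ_π : ∀ a i, ∀ x ∈ H.lowerCentralSeries i, ρ a (π i x) = π i (a * x * a⁻¹)
  ρ_lie : ∀ a u v, ρ a ⁅u, v⁆ = ⁅ρ a u, ρ a v⁆
  ρ_H : ∀ h ∈ H, ρ h = 1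
  sep : ∀ (i : ℕ) (χ : A → K),
    (∀ x ∈ H.lowerCentralSeries i, ∀ y ∈ H.lowerCentralSeries i, χ (x * y) = χ x + χ y) →
    (∀ x ∈ H.lowerCentralSeries (i + 1), χ x = 0) →
    ∀ x ∈ H.lowerCentralSeries i, π i x = 0 → χ x = 0

/-- Package GL: the graded Lie algebra exists. -/
def StGL : Prop :=
  ∀ (K : Type) [Field K] (A : Type) [Group A] (H : Subgroup A), H.Normal → Nonempty (GrL K H)

/-- Package S0: commuting operators. -/
def StS0 : Prop :=
  ∀ (k : ℕ) (K L Q ι : Type) [Field K] [LieRing L] [LieAlgebra K L] [Group Q] [Finite Q]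
    (ρ : Q →* Module.End K L) (M E : Set L) (B : ι → AddSubgroup L) (W : AddSubgroup L),
    (∀ q x y, ρ q ⁅x, y⁆ = ⁅ρ q x, ρ q y⁆) → Kills M M k →
    (∀ e ∈ E, ∃ q, ρ q e ∈ M) → (∀ x ∈ Hom B, ∃ q, ρ q x ∈ M) →
    (∀ q, ∀ e ∈ E, ρ q e ∈ E) → (∀ q d, ∀ x ∈ B d, ρ q x ∈ B d) → (∀ q, ∀ x ∈ W, ρ q x ∈ W) →
    (∀ e ∈ E, ∀ x ∈ Hom B, ⁅e, x⁆ ∈ Hom B) → (∀ e ∈ E, ∀ x ∈ W, ⁅e, x⁆ ∈ W) →
    (∀ e ∈ E, ∀ e' ∈ E, ∀ x ∈ Hom B, ⁅⁅e, e'⁆, x⁆ ∈ W) →
    ∀ w : List L, Nat.card Q * (2 ^ Nat.card Q * k) ≤ w.length → (∀ y ∈ w, y ∈ E) →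
      ∀ x ∈ Hom B, adw w x ∈ W

/-- Lemma S: if a derived set of `E` acts nilpotently, so does `E`. -/
def StS : Prop :=
  ∀ (k : ℕ) (K L Q ι : Type) [Field K] [LieRing L] [LieAlgebra K L] [Group Q] [Finite Q]
    (ρ : Q →* Module.End K L) (M : Set L) (F : ι → AddSubgroup L),
    (∀ q x y, ρ q ⁅x, y⁆ = ⁅ρ q x, ρ q y⁆) → Kills M M k →
    (∀ x ∈ Hom F, ∃ q, ρ q x ∈ M) → (∀ q d, ∀ x ∈ F d, ρ q x ∈ F d) →
    ∀ (s T : ℕ) (E : Set L), E ⊆ Hom F → (∀ q, ∀ e ∈ E, ρ q e ∈ E) →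
      (∀ e ∈ E, ∀ e' ∈ E, ⁅e, e'⁆ ∈ E) → (∀ e ∈ E, ∀ x ∈ Hom F, ⁅e, x⁆ ∈ Hom F) →
      Kills (dd^[s] E) (Hom F) T →
      Kills E (Hom F) ((Nat.card Q * (2 ^ Nat.card Q * k)) ^ s * T)

/-- Package Kr: the theorem of Kreknin, in the form of Khukhro and Shumyatsky. -/
def StKr : Prop :=
  ∀ m r : ℕ, 0 < m → ∃ f : ℕ, ∀ (K L : Type) [Field K] [LieRing L] [LieAlgebra K L]
    (G : ZMod m → Submodule K L), (∀ i j, ∀ x ∈ G i, ∀ y ∈ G j, ⁅x, y⁆ ∈ G (i + j)) →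
    (∀ i, Kills (G 0 : Set L) (G i : Set L) r) →
    dd^[f] ((⨆ i, G i : Submodule K L) : Set L) ⊆ (G 0 : Set L)

/-- The same for an automorphism of finite order. -/
def StKa : Prop :=
  ∀ m r : ℕ, 0 < m → ∃ f : ℕ, ∀ (K L : Type) [Field K] [LieRing L] [LieAlgebra K L]
    (ω : K) (φ : Module.End K L) (X : Set L), IsPrimitiveRoot ω m →
    (∀ x y, φ ⁅x, y⁆ = ⁅φ x, φ y⁆) → (∀ x ∈ X, ∀ y ∈ X, ⁅x, y⁆ ∈ X) → (∀ x ∈ X, φ x ∈ X) →
    (∀ x ∈ X, (φ ^ m) x = x) → (∀ x ∈ X, ∑ t ∈ Finset.range m, (φ ^ t) x ∈ X) →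
    Kills {x ∈ X | φ x = x} X r → Kills (dd^[f] X) X r

/-- Package Fix: a `p`-group cannot cover a finite vector space by the translates of a proper
subgroup. -/
def StFix : Prop :=
  ∀ (p e : ℕ) (K L Q : Type) [Field K] [CharP K p] [AddCommGroup L] [Module K L] [Group Q]
    [Finite Q] (ρ : Q →* Module.End K L) (R : Subgroup Q) (X W : AddSubgroup L), p.Prime →
    R.Normal → R.index = p ^ e → Finite X → (∀ q, ∀ x ∈ X, ρ q x ∈ X) →
    (∀ g ∈ R, ∀ x ∈ X, ρ g x = x) → (∀ x ∈ X, ∃ q, ρ q x ∈ W) → X ≤ W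

/-- A normal series with cyclic factors. -/
def SupS (Q : Type) [Group Q] : Prop :=
  ∃ (m : ℕ) (N : ℕ → Subgroup Q), N 0 = ⊥ ∧ N m = ⊤ ∧ (∀ i, (N i).Normal) ∧
    ∀ i < m, ∃ g : Q, N (i + 1) = N i ⊔ Subgroup.zpowers g

/-- Package Fix, second part: cyclic steps between normal subgroups. -/
def StSS : Prop :=
  ∀ (Q : Type) [Group Q], SupS Q → ∀ N R : Subgroup Q, N.Normal → R.Normal → N < R →
    ∃ g ∈ R, g ∉ N ∧ (N ⊔ Subgroup.zpowers g).Normal

/-- Package Fix, third part: characters separate a nontrivial abelian factor. -/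
def StCh : Prop :=
  ∀ (A : Type) [Group A] [Finite A] (X Y : Subgroup A), Y < X → ⁅X, X⁆ ≤ Y →
    ∃ p : ℕ, p.Prime ∧ p ∣ Nat.card X ∧ ∀ (K : Type) [Field K] [CharP K p], ∃ χ : A → K,
      (∀ x ∈ X, ∀ y ∈ X, χ (x * y) = χ x + χ y) ∧ (∀ y ∈ Y, χ y = 0) ∧ ∃ x ∈ X, χ x ≠ 0

/-- Package Br: the theorem of Brandl. -/
def StBr : Prop :=
  ∀ (A : Type) [Group A] [Finite A] (H U : Subgroup A), H.Normal → U ≤ H →
    (∀ h ∈ H, ∃ a : A, a * h * a⁻¹ ∈ U) → Group.IsSolvable H → Group.IsNilpotent U →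
    Group.IsNilpotent H

end Pool.Agent.P.MP_169bcc_al.NC
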