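import Pool.Agent.P.MP_169bcc_al.NC.Spec

/-!
Nilpotent covering subgroups: statements for the steps of prime power order.
-/

noncomputable section

namespace Pool.Agent.P.MP_169bcc_al.NC

/-- The graded Lie algebra with components `A i ⧸ B i`. -/
structure GrF (K : Type) [Field K] {L ι Q : Type} [LieRing L] [LieAlgebra K L] [AddCommMonoid ι]
    [Group Q] (ρ : Q →* Module.End K L) (A B : ι → Submodule K L) where
  L' : Type
  [ring : LieRing L']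
  [alg : LieAlgebra K L']
  π : ι → L → L'
  σ : Q →* Module.End K L'
  π_add : ∀ i, ∀ x ∈ A i, ∀ y ∈ A i, π i (x + y) = π i x + π i y
  π_eq_zero : ∀ i, ∀ x ∈ A i, π i x = 0 ↔ x ∈ B i
  π_lie : ∀ i j, ∀ x ∈ A i, ∀ y ∈ A j, ⁅π i x, π j y⁆ = π (i + j) ⁅x, y⁆
  σ_π : ∀ q i, ∀ x ∈ A i, σ q (π i x) = π i (ρ q x)
  σ_lie : ∀ q u v, σ q ⁅u, v⁆ = ⁅σ q u, σ q v⁆

/-- Package GrF: the graded Lie algebra exists. -/
def StGrF : Prop :=
  ∀ (K L ι Q : Type) [Field K] [LieRing L] [LieAlgebra K L] [AddCommMonoid ι] [Group Q]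
    (ρ : Q →* Module.End K L) (A B : ι → Submodule K L), (∀ q x y, ρ q ⁅x, y⁆ = ⁅ρ q x, ρ q y⁆) →
    (∀ i, B i ≤ A i) → (∀ i j, ∀ x ∈ A i, ∀ y ∈ A j, ⁅x, y⁆ ∈ A (i + j)) →
    (∀ i j, ∀ x ∈ A i, ∀ y ∈ B j, ⁅x, y⁆ ∈ B (i + j)) → (∀ q i, ∀ x ∈ A i, ρ q x ∈ A i) →
    (∀ q i, ∀ x ∈ B i, ρ q x ∈ B i) → Nonempty (GrF K ρ A B)

/-- The product of the operators `ρ g - 1`, `g` in the list `l`. -/
def dlt {K V Q : Type} [Field K] [AddCommGroup V] [Module K V] [Group Q]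
    (ρ : Q →* Module.End K V) (l : List Q) (x : V) : V := l.foldr (fun g y => ρ g y - y) x

/-- Package Uni: a `p`-group acts unipotently in characteristic `p`, with a bounded index. -/
def StUni : Prop :=
  ∀ n : ℕ, ∃ s : ℕ, ∀ (p : ℕ) (K V Q : Type) [Field K] [CharP K p] [AddCommGroup V] [Module K V]
    [Group Q] [Finite Q] (ρ : Q →* Module.End K V) (N N' : Subgroup Q) (X : AddSubgroup V),
    p.Prime → Nat.card Q = n → N.Normal → (∀ g ∈ N', ∃ e : ℕ, g ^ p ^ e ∈ N) →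
    (∀ g ∈ N', ∀ x ∈ X, ρ g x ∈ X) → (∀ g ∈ N, ∀ x ∈ X, ρ g x = x) →
    ∀ l : List Q, s ≤ l.length → (∀ g ∈ l, g ∈ N') → ∀ x ∈ X, dlt ρ l x = 0

/-- A normal series whose factors are cyclic or `p`-groups. -/
def PCyc (p : ℕ) (Q : Type) [Group Q] : Prop :=
  ∃ (m : ℕ) (N : ℕ → Subgroup Q), N 0 = ⊥ ∧ N m = ⊤ ∧ (∀ i, (N i).Normal) ∧
    ∀ i < m, (∃ g : Q, N (i + 1) = N i ⊔ Subgroup.zpowers g) ∨
      (N i ≤ N (i + 1) ∧ ∀ x ∈ N (i + 1), ∃ e : ℕ, x ^ p ^ e ∈ N i)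

/-- Package Step: above a proper normal subgroup there is a cyclic step of order dividing `m` or
a `p`-step. -/
def StStep : Prop :=
  ∀ (p e m : ℕ) (Q : Type) [Group Q] [Finite Q], PCyc p Q → Nat.card Q = p ^ e * m →
    ∀ N : Subgroup Q, N.Normal → N ≠ ⊤ → ∃ N' : Subgroup Q, N'.Normal ∧ N < N' ∧
      ((∃ g : Q, N' = N ⊔ Subgroup.zpowers g ∧ g ^ m ∈ N) ∨ ∀ x ∈ N', ∃ e : ℕ, x ^ p ^ e ∈ N)

/-- The data of the Lie algebra theorem. -/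
structure Dat (k : ℕ) {K L ι Q : Type} [Field K] [LieRing L] [LieAlgebra K L] [AddCommMonoid ι]
    [Group Q] (ρ : Q →* Module.End K L) (F : ι → AddSubgroup L) (M : Set L) : Prop where
  lie : ∀ q x y, ρ q ⁅x, y⁆ = ⁅ρ q x, ρ q y⁆
  br : ∀ i j, ∀ x ∈ F i, ∀ y ∈ F j, ⁅x, y⁆ ∈ F (i + j)
  inv : ∀ q d, ∀ x ∈ F d, ρ q x ∈ F d
  cov : ∀ x ∈ Hom F, ∃ q, ρ q x ∈ M
  nilM : Kills M M k
  nilF : ∃ T, Kills (Hom F) (Hom F) T

/-- The bound `c` holds whenever `N` acts trivially. -/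
def Bd (k c : ℕ) (K : Type) [Field K] {Q : Type} [Group Q] (N : Subgroup Q) : Prop :=
  ∀ (L ι : Type) [LieRing L] [LieAlgebra K L] [AddCommMonoid ι] (ρ : Q →* Module.End K L)
    (F : ι → AddSubgroup L) (M : Set L), Dat k ρ F M → (∀ g ∈ N, ∀ x ∈ Hom F, ρ g x = x) →
    Kills (Hom F) (Hom F) c

end Pool.Agent.P.MP_169bcc_al.NC
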