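import Pool.Agent.P.MP_169bcc_al.NC.Spec2
import Pool.Agent.P.MP_169bcc_al.NC.Fix

/-!
Unipotent action of a `p`-group, and steps between normal subgroups.
-/

noncomputable section

namespace Pool.Agent.P.MP_169bcc_al.NC

namespace UniP

variable {K V Q : Type} [Field K] [AddCommGroup V] [Module K V] [Group Q]

/-- The ascending series of fixed points. -/
def C (ρ : Q →* Module.End K V) : ℕ → AddSubgroup V
  | 0 => ⊥
  | i + 1 =>
    { carrier := {y | ∀ g, ρ g y - y ∈ C ρ i}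
      zero_mem' := fun g => by rw [map_zero, sub_zero]; exact zero_mem _
      add_mem' := fun {a b} ha hb g => by
        rw [map_add, add_sub_add_comm]; exact add_mem (ha g) (hb g)
      neg_mem' := fun {a} ha g => by
        rw [map_neg, ← neg_sub']; exact neg_mem (ha g) }

theorem C_inv (ρ : Q →* Module.End K V) : ∀ i q, ∀ y ∈ C ρ i, ρ q y ∈ C ρ i
  | 0, q, y, hy => by rw [AddSubgroup.mem_bot.1 hy, map_zero]; exact zero_mem _
  | i + 1, q, y, hy => fun g => by
    have := sub_mem (hy (g * q)) (hy q)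
    rwa [sub_sub_sub_cancel_right, map_mul] at this

theorem C_succ (ρ : Q →* Module.End K V) (i : ℕ) : C ρ i ≤ C ρ (i + 1) :=
  fun y hy g => sub_mem (C_inv ρ i g y hy) hy

theorem dlt_C (ρ : Q →* Module.End K V) (N : Subgroup Q) : ∀ (i : ℕ) (l : List Q), i ≤ l.length →
    (∀ g ∈ l, g ∈ N) → ∀ y ∈ C (ρ.comp N.subtype) i, dlt ρ l y = 0
  | 0, l, _, _, y, hy => by
    rw [AddSubgroup.mem_bot.1 hy]
    induction l with
    | nil => rfl
    | cons g l ih =>
      change ρ g (dlt ρ l 0) - dlt ρ l 0 = 0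
      rw [ih (Nat.zero_le _) fun a ha => by simp_all, map_zero, sub_zero]
  | i + 1, l, hl, hN, y, hy => by
    rcases List.eq_nil_or_concat l with rfl | ⟨l, g, rfl⟩
    · simp at hl
    · rw [List.concat_eq_append] at hl hN ⊢
      have := dlt_C ρ N i l (by simpa using hl) (fun a ha => hN a (by simp [ha])) _
        (hy ⟨g, hN g (by simp)⟩)
      simpa [dlt, List.foldr_append] using this

theorem mem_C {p e : ℕ} [CharP K p] [Finite Q] (hp : p.Prime) (ρ : Q →* Module.End K V) (x : V)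
    (h : ∀ q g, ρ (q ^ p ^ e) (ρ g x) = ρ g x) : x ∈ C ρ (p ^ Nat.card Q) := by
  classical
  have := Fintype.ofFinite Q
  have := Fact.mk hp
  let Φ : (Q → ZMod p) →+ V := AddMonoidHom.mk'
    (fun c => ∑ g, ZMod.castHom (dvd_refl p) K (c g) • ρ g x) fun a b => by
      simp only [Pi.add_apply, map_add, add_smul, Finset.sum_add_distrib]
  have hfin : Finite Φ.range := Finite.of_surjective _ Φ.rangeRestrict_surjective
  have hcard : Nat.card Φ.range ≤ p ^ Nat.card Q := by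
    have := Nat.card_le_card_of_surjective _ Φ.rangeRestrict_surjective
    rwa [Nat.card_fun, Nat.card_zmod] at this
  have hinv : ∀ q, ∀ y ∈ Φ.range, ρ q y ∈ Φ.range := by
    rintro q _ ⟨c, rfl⟩
    refine ⟨fun g => c (q⁻¹ * g), ?_⟩
    simp only [Φ, AddMonoidHom.mk'_apply, map_sum, map_smul]
    rw [← Equiv.sum_comp (Equiv.mulLeft q)]
    simp
  have hR : ∀ q, ∀ y ∈ Φ.range, ρ (q ^ p ^ e) y = y := by
    rintro q _ ⟨c, rfl⟩
    simp only [Φ, AddMonoidHom.mk'_apply, map_sum, map_smul, h]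
  have key : ∀ i, Φ.range ≤ C ρ i ∨ i < Nat.card (Φ.range ⊓ C ρ i : AddSubgroup V) := by
    intro i
    have hf : ∀ i, Finite (Φ.range ⊓ C ρ i : AddSubgroup V) := fun i =>
      Finite.of_injective _ (AddSubgroup.inclusion_injective inf_le_left)
    induction i with
    | zero => exact Or.inr Nat.card_pos
    | succ i ih =>
      by_cases hn : Φ.range ≤ C ρ i
      · exact Or.inl (hn.trans (C_succ ρ i))
      obtain ⟨z, hz, hzC, hz'⟩ := FixP.fixv (e := e) ρ _ _ hp hinv (C_inv ρ i) hR hn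
      have hle : Φ.range ⊓ C ρ i ≤ Φ.range ⊓ C ρ (i + 1) := inf_le_inf_left _ (C_succ ρ i)
      have := (AddSubgroup.card_le_of_le hle).lt_of_ne fun h => hzC
        ((AddSubgroup.eq_of_le_of_card_ge hle h.ge).ge ⟨hz, hz'⟩).2
      exact Or.inr (by have := ih.resolve_left hn; omega)
  refine (key _).resolve_right (not_lt.2 ((AddSubgroup.card_le_of_le inf_le_left).trans hcard))
    ⟨Pi.single 1 1, ?_⟩
  simp only [Φ, AddMonoidHom.mk'_apply]
  rw [Finset.sum_eq_single 1 (fun b _ hb => by simp [hb]) (by simp)]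
  simp

end UniP

open UniP in
theorem uni_ok : StUni := by
  intro n
  refine ⟨n ^ n + 1, fun p K V Q _ _ _ _ _ _ ρ N N' X hp hn hN hP hX hT l hl hlN x hx => ?_⟩
  by_cases hle : N' ≤ N
  · refine dlt_C ρ N' 1 l (by omega) hlN x fun g => ?_
    exact AddSubgroup.mem_bot.2 (sub_eq_zero.2 (hT g (hle g.2) x hx))
  obtain ⟨g, hg, hgN⟩ := SetLike.not_le_iff_exists.1 hle
  have hpn : p ≤ n := by
    obtain ⟨e, he⟩ := hP g hg
    have h1 : orderOf (QuotientGroup.mk' N g) ∣ p ^ e := orderOf_dvd_of_pow_eq_one (by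
      rw [← map_pow]; exact (QuotientGroup.eq_one_iff _).2 he)
    obtain ⟨i, -, hi⟩ := (Nat.dvd_prime_pow hp).1 h1
    have hi0 : i ≠ 0 := fun h => hgN ((QuotientGroup.eq_one_iff g).1
      (orderOf_eq_one_iff.1 (by rw [h, pow_zero] at hi; exact hi)))
    exact Nat.le_of_dvd (hn ▸ Nat.card_pos) (hn ▸ ((dvd_pow_self p hi0).trans
      (hi ▸ orderOf_dvd_natCard _)).trans (Subgroup.card_quotient_dvd_card N))
  choose! e he using hP
  have := Fintype.ofFinite Q
  refine dlt_C ρ N' _ l ?_ hlN x (mem_C (e := Finset.univ.sup e) hp _ x fun q a => ?_)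
  · have h1 := Nat.pow_le_pow_left hpn (Nat.card N')
    have h2 := Nat.pow_le_pow_right (hp.pos.trans_le hpn) (hn ▸ N'.card_le_card_group)
    omega
  · refine hT _ ?_ _ (hX a a.2 x hx)
    obtain ⟨t, ht⟩ := Nat.exists_eq_add_of_le (Finset.le_sup (f := e) (Finset.mem_univ (q : Q)))
    rw [ht, pow_add, pow_mul]
    exact N.pow_mem (he q q.2) _

theorem step_ok : StStep := by
  classical
  rintro p e m Q _ _ ⟨r, S, h0, hr, hS, hst⟩ hc N hN hNT
  have hex : ∃ i, ¬ S i ≤ N := ⟨r, by rwa [hr, top_le_iff]⟩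
  have hle : Nat.find hex ≤ r := Nat.find_min' hex (by rwa [hr, top_le_iff])
  have h1 := Nat.find_spec hex
  obtain ⟨j, hj⟩ := Nat.exists_eq_succ_of_ne_zero
    (show Nat.find hex ≠ 0 from fun h => h1 (by rw [h, h0]; exact bot_le))
  have h2 : S j ≤ N := not_not.1 (Nat.find_min hex (by omega))
  rw [hj] at h1 hle
  have := hS (j + 1)
  have hp : ∀ (T : Subgroup Q), (∀ z ∈ T, ∃ e : ℕ, z ^ p ^ e ∈ N) →
      ∀ x ∈ N ⊔ T, ∃ e : ℕ, x ^ p ^ e ∈ N := fun T hT x hx => by
    obtain ⟨y, hy, z, hz, rfl⟩ := Subgroup.mem_sup_of_normal_left.1 hx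
    obtain ⟨e, he⟩ := hT z hz
    refine ⟨e, (QuotientGroup.eq_one_iff _).1 ?_⟩
    rw [QuotientGroup.mk_pow, QuotientGroup.mk_mul, (QuotientGroup.eq_one_iff y).2 hy, one_mul,
      ← QuotientGroup.mk_pow, (QuotientGroup.eq_one_iff _).2 he]
  rcases hst j hle with ⟨g, hg⟩ | ⟨-, h3⟩
  · have e1 : N ⊔ S (j + 1) = N ⊔ Subgroup.zpowers g := by
      rw [hg, ← sup_assoc, sup_of_le_left h2]
    by_cases hm : g ^ m ∈ N
    · exact ⟨N ⊔ S (j + 1), inferInstance, left_lt_sup.2 h1, Or.inl ⟨g, e1, hm⟩⟩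
    refine ⟨N ⊔ Subgroup.zpowers (g ^ m), ?_,
      left_lt_sup.2 fun h => hm (h (Subgroup.mem_zpowers _)), Or.inr (hp _ ?_)⟩
    · have e2 : ∀ x : Q, N ⊔ Subgroup.zpowers x =
          (Subgroup.zpowers (QuotientGroup.mk' N x)).comap (QuotientGroup.mk' N) := fun x => by
        rw [← MonoidHom.map_zpowers, Subgroup.comap_map_eq, QuotientGroup.ker_mk', sup_comm]
      refine ⟨fun x hx a => ?_⟩
      have h4 : a * g * a⁻¹ ∈ N ⊔ Subgroup.zpowers g := e1 ▸ Subgroup.Normal.conj_mem inferInstance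
        g (e1 ▸ Subgroup.mem_sup_right (Subgroup.mem_zpowers g)) a
      rw [e2] at hx h4 ⊢
      obtain ⟨t, ht⟩ := h4
      obtain ⟨u, hu⟩ := hx
      refine ⟨t * u, ?_⟩
      simp only [map_mul, map_inv, map_pow] at ht hu ⊢
      rw [← hu, ← conj_zpow, ← conj_pow, ← ht, ← zpow_natCast, ← zpow_natCast, ← zpow_mul,
        ← zpow_mul, ← zpow_mul]
      congr 1
      ring
    · rintro _ ⟨t, rfl⟩
      refine ⟨e, ?_⟩
      have : (g ^ m) ^ p ^ e = 1 := by rw [← pow_mul, mul_comm, ← hc, pow_card_eq_one']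
      simp only
      rw [← zpow_natCast, ← zpow_mul, mul_comm, zpow_mul, zpow_natCast, this, one_zpow]
      exact one_mem _
  · exact ⟨N ⊔ S (j + 1), inferInstance, left_lt_sup.2 h1, Or.inr (hp _ fun z hz =>
      (h3 z hz).imp fun _ h => h2 h)⟩

end Pool.Agent.P.MP_169bcc_al.NC
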